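import Pool.Agent.Q123.KB.Kod

set_option autoImplicit false

/-!
Ranks of the boundary maps of a simplicial complex over a field and over the rational numbers.
-/

namespace Pool.Agent.Q123.KB

open Finset Pool.Agent.H677R3.EdgeReg

variable {n : ℕ} {K : Type*} [Field K]

/-- closed under subsets -/
def Down (F : Finset (Finset (Fin n))) : Prop := ∀ T j, insert j T ∈ F → T ∈ F

/-- the rank of the differential on the `i`-chains -/
noncomputable def rk (K : Type*) [Field K] (F : Finset (Finset (Fin n))) (i : ℕ) : ℕ :=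
  Module.finrank K ↥((cchains K F i).map (cD K n))

/-- the number of members of size `i` -/
def cnt (F : Finset (Finset (Fin n))) (i : ℕ) : ℕ := (F.filter fun T => T.card = i).card

theorem finrank_cchains (F : Finset (Finset (Fin n))) (i : ℕ) :
    Module.finrank K (cchains K F i) = cnt F i := by
  classical
  let e : cchains K F i ≃ₗ[K] ({T // T ∈ F.filter fun T => T.card = i} → K) :=
    { toFun := fun a T => a.1 T.1
      map_add' := fun a b => rfl
      map_smul' := fun r a => rfl
      invFun := fun g => ⟨fun T => if h : T ∈ F.filter (fun T => T.card = i) then g ⟨T, h⟩ else 0, by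
        intro T hT
        by_cases h : T ∈ F.filter (fun T => T.card = i)
        · exact Finset.mem_filter.1 h
        · exact absurd (dif_neg h) hT⟩
      left_inv := by
        intro a
        apply Subtype.ext
        ext1 T
        by_cases h : T ∈ F.filter (fun T => T.card = i)
        · exact dif_pos h
        · change (if h : T ∈ F.filter (fun T => T.card = i) then a.1 T else 0) = a.1 T
          rw [dif_neg h]
          by_contra h0
          exact h (Finset.mem_filter.2 (a.2 T (fun h1 => h0 h1.symm)))
      right_inv := by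
        intro g
        ext1 T
        exact dif_pos T.2 }
  rw [e.finrank_eq, Module.finrank_pi, Fintype.card_coe]
  rfl

theorem rk_add_cycles (F : Finset (Finset (Fin n))) (i : ℕ) :
    rk K F i + Module.finrank K (ccycles K F i) = cnt F i := by
  have h := LinearMap.finrank_range_add_finrank_ker ((cD K n).domRestrict (cchains K F i))
  rw [LinearMap.range_domRestrict, LinearMap.ker_domRestrict, finrank_cchains] at h
  rw [← h]
  unfold rk ccycles
  congr 1
  rw [← Submodule.map_comap_subtype (cchains K F i) (LinearMap.ker (cD K n)),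
    Submodule.finrank_map_subtype_eq]

theorem bd_le {F : Finset (Finset (Fin n))} (hF : Down F) (i : ℕ) :
    cboundaries K F i ≤ ccycles K F i := by
  rintro _ ⟨a, ha, rfl⟩
  refine ⟨fun T hT => ?_, ?_⟩
  · change cd a T ≠ 0 at hT
    unfold cd at hT
    obtain ⟨j, hj, h⟩ := Finset.exists_ne_zero_of_sum_ne_zero hT
    have h1 : a (insert j T) ≠ 0 := fun h0 => h (by rw [h0, mul_zero])
    obtain ⟨h2, h3⟩ := ha _ h1
    refine ⟨hF T j h2, ?_⟩
    rw [Finset.card_insert_of_notMem (by simpa using hj)] at h3
    omega
  · change cd (cd a) = 0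
    ext1 T
    exact cd_cd a T

theorem comb_add {F : Finset (Finset (Fin n))} (hF : Down F) (i : ℕ) :
    combBetti K F i + rk K F i + rk K F (i + 1) = cnt F i := by
  have h1 := Submodule.finrank_quotient_add_finrank
    ((cboundaries K F i).submoduleOf (ccycles K F i))
  have h2 : Module.finrank K ((cboundaries K F i).submoduleOf (ccycles K F i)) = rk K F (i + 1) :=
    (Submodule.submoduleOfEquivOfLe (bd_le hF i)).finrank_eq
  have h3 := rk_add_cycles (K := K) F i
  unfold combBetti
  omega

/-- the integral vector of the boundary of a face -/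
def vec (T : Finset (Fin n)) : Finset (Fin n) → ℤ := cd (Pi.single T 1)

/-- the vector with integral entries in a field -/
def castV (K : Type*) [Field K] (n : ℕ) : (Finset (Fin n) → ℤ) →ₗ[ℤ] (Finset (Fin n) → K) where
  toFun x T := (x T : K)
  map_add' x y := by ext1 T; simp
  map_smul' r x := by ext1 T; simp

theorem cast_vec (T : Finset (Fin n)) : castV K n (vec T) = cd (Pi.single T (1 : K)) := by
  ext1 S
  change ((vec T S : ℤ) : K) = _
  unfold vec cd sg
  push_cast
  refine Finset.sum_congr rfl fun j _ => ?_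
  congr 1
  by_cases h : insert j S = T
  · rw [h, Pi.single_eq_same, Pi.single_eq_same, Int.cast_one]
  · rw [Pi.single_eq_of_ne h, Pi.single_eq_of_ne h, Int.cast_zero]

theorem cd_eq_sum (a : Finset (Fin n) → K) : cd a = ∑ T, a T • castV K n (vec T) := by
  ext1 S
  rw [Finset.sum_apply]
  simp_rw [cast_vec, Pi.smul_apply, smul_eq_mul]
  unfold cd
  simp_rw [Finset.mul_sum]
  rw [Finset.sum_comm]
  refine Finset.sum_congr rfl fun j _ => ?_
  rw [Finset.sum_eq_single (insert j S)]
  · rw [Pi.single_eq_same]; ring
  · intro T _ hT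
    rw [Pi.single_eq_of_ne (Ne.symm hT)]; ring
  · intro h; exact absurd (Finset.mem_univ _) h

theorem rk_le (F : Finset (Finset (Fin n))) (i : ℕ) : rk K F i ≤ rk ℚ F i := by
  classical
  let N : Submodule ℤ (Finset (Fin n) → ℤ) :=
    Submodule.span ℤ (vec '' {T : Finset (Fin n) | T ∈ F ∧ T.card = i})
  let b := Module.finBasis ℤ N
  have h1 : ∀ x ∈ N, castV K n x ∈ Submodule.span K
      (Set.range fun j : Fin (Module.finrank ℤ N) => castV K n (b j : Finset (Fin n) → ℤ)) := by
    intro x hx
    have h2 := b.sum_repr ⟨x, hx⟩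
    have h3 : x = ∑ j, b.repr ⟨x, hx⟩ j • (b j : Finset (Fin n) → ℤ) := by
      conv_lhs => rw [show x = ((⟨x, hx⟩ : N) : Finset (Fin n) → ℤ) from rfl, ← h2]
      rw [Submodule.coe_sum]
      rfl
    rw [h3, map_sum]
    refine Submodule.sum_mem _ fun j _ => ?_
    rw [map_smul, ← Int.cast_smul_eq_zsmul K]
    exact Submodule.smul_mem _ _ (Submodule.subset_span ⟨j, rfl⟩)
  have h2 : rk K F i ≤ Module.finrank ℤ N := by
    have h3 : (cchains K F i).map (cD K n) ≤ Submodule.span K
        (Set.range fun j : Fin (Module.finrank ℤ N) => castV K n (b j : Finset (Fin n) → ℤ)) := by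
      rintro _ ⟨a, ha, rfl⟩
      change cd a ∈ _
      rw [cd_eq_sum]
      refine Submodule.sum_mem _ fun T _ => ?_
      by_cases h0 : a T = 0
      · rw [h0, zero_smul]; exact Submodule.zero_mem _
      · exact Submodule.smul_mem _ _ (h1 _ (Submodule.subset_span ⟨T, ha T h0, rfl⟩))
    refine (Submodule.finrank_mono h3).trans ?_
    refine (finrank_range_le_card _).trans ?_
    rw [Fintype.card_fin]
  refine h2.trans ?_
  have h3 : ∀ x ∈ N, castV ℚ n x ∈ (cchains ℚ F i).map (cD ℚ n) := by
    intro x hx
    refine Submodule.span_induction (p := fun x _ => castV ℚ n x ∈ (cchains ℚ F i).map (cD ℚ n))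
      ?_ ?_ ?_ ?_ hx
    · rintro _ ⟨T, hT, rfl⟩
      rw [cast_vec]
      refine ⟨Pi.single T 1, fun S hS => ?_, rfl⟩
      by_cases h : S = T
      · rw [h]; exact hT
      · exact absurd (Pi.single_eq_of_ne h _) hS
    · rw [map_zero]; exact Submodule.zero_mem _
    · intro x y _ _ hx hy
      rw [map_add]; exact Submodule.add_mem _ hx hy
    · intro r x _ hx
      rw [map_smul, ← Int.cast_smul_eq_zsmul ℚ]
      exact Submodule.smul_mem _ _ hx
  have h4 : LinearIndependent ℤ (fun j => castV ℚ n (b j : Finset (Fin n) → ℤ)) := by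
    have h5 := b.linearIndependent
    have h6 : LinearIndependent ℤ (fun j => (b j : Finset (Fin n) → ℤ)) :=
      h5.map' N.subtype (Submodule.ker_subtype N)
    refine h6.map' (castV ℚ n) ?_
    rw [LinearMap.ker_eq_bot]
    intro x y hxy
    ext1 T
    have h7 : ((x T : ℤ) : ℚ) = ((y T : ℤ) : ℚ) := congrFun hxy T
    exact_mod_cast h7
  rw [LinearIndependent.iff_fractionRing ℤ ℚ] at h4
  have h5 := finrank_span_eq_card h4
  rw [Fintype.card_fin] at h5
  rw [← h5]
  refine Submodule.finrank_mono ?_
  rw [Submodule.span_le]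
  rintro _ ⟨j, rfl⟩
  exact h3 _ (b j).2

theorem comb_ge {F : Finset (Finset (Fin n))} (hF : Down F) (i : ℕ) :
    combBetti ℚ F i ≤ combBetti K F i := by
  have h1 := comb_add (K := K) hF i
  have h2 := comb_add (K := ℚ) hF i
  have h3 := rk_le (K := K) F i
  have h4 := rk_le (K := K) F (i + 1)
  omega

theorem rk_eq_of_comb {F : Finset (Finset (Fin n))} (hF : Down F)
    (h : ∀ i, combBetti K F i = combBetti ℚ F i) (i : ℕ) : rk K F i = rk ℚ F i := by
  have h1 := comb_add (K := K) hF i
  have h2 := comb_add (K := ℚ) hF i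
  have h3 := rk_le (K := K) F i
  have h4 := rk_le (K := K) F (i + 1)
  have h5 := h i
  omega

theorem cyc_eq_of_rk {F : Finset (Finset (Fin n))} {i : ℕ} (h : rk K F i = rk ℚ F i) :
    Module.finrank K (ccycles K F i) = Module.finrank ℚ (ccycles ℚ F i) := by
  have h1 := rk_add_cycles (K := K) F i
  have h2 := rk_add_cycles (K := ℚ) F i
  omega

theorem rk_eq_of_cyc {F : Finset (Finset (Fin n))} {i : ℕ}
    (h : Module.finrank K (ccycles K F i) = Module.finrank ℚ (ccycles ℚ F i)) :
    rk K F i = rk ℚ F i := by
  have h1 := rk_add_cycles (K := K) F i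
  have h2 := rk_add_cycles (K := ℚ) F i
  omega

theorem rk_eq_of_cnt {F : Finset (Finset (Fin n))} {i : ℕ} (h : cnt F i = 0) :
    rk K F i = rk ℚ F i := by
  have h1 := rk_add_cycles (K := K) F i
  have h2 := rk_add_cycles (K := ℚ) F i
  omega

end Pool.Agent.Q123.KB
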