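import Pool.Agent.Q123.KB.Rank

set_option autoImplicit false

/-!
The top cycles of the upper Koszul complex of an edge ideal do not depend on the field.
-/

namespace Pool.Agent.Q123.KB

open Finset Pool.Agent.H677R3.EdgeReg

variable {n : ℕ} {K : Type*} [Field K]

/-- the upper Koszul complex of the edge ideal of `G` at the squarefree multidegree `W` -/
noncomputable def EF (G : SimpleGraph (Fin n)) (W : Finset (Fin n)) : Finset (Finset (Fin n)) :=
  open Classical in univ.filter fun A => A ⊆ W ∧ ∃ x ∈ W, ∃ y ∈ W, x ∉ A ∧ y ∉ A ∧ G.Adj x y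

theorem mem_EF {G : SimpleGraph (Fin n)} {W A : Finset (Fin n)} :
    A ∈ EF G W ↔ A ⊆ W ∧ ∃ x ∈ W, ∃ y ∈ W, x ∉ A ∧ y ∉ A ∧ G.Adj x y := by
  classical
  simp [EF]

theorem EF_card {G : SimpleGraph (Fin n)} {W A : Finset (Fin n)} (h : A ∈ EF G W) :
    A.card + 2 ≤ W.card := by
  obtain ⟨h1, x, hx, y, hy, hxA, hyA, hxy⟩ := mem_EF.1 h
  have h2 : insert x (insert y A) ⊆ W := by
    intro z hz
    rcases Finset.mem_insert.1 hz with rfl | hz
    · exact hx
    · rcases Finset.mem_insert.1 hz with rfl | hz
      · exact hy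
      · exact h1 hz
  have h3 := Finset.card_le_card h2
  rw [Finset.card_insert_of_notMem, Finset.card_insert_of_notMem hyA] at h3
  · exact h3
  · simp [hxA, hxy.ne]

theorem EF_down (G : SimpleGraph (Fin n)) (W : Finset (Fin n)) : Down (EF G W) := by
  intro T j h
  obtain ⟨h1, x, hx, y, hy, hxA, hyA, hxy⟩ := mem_EF.1 h
  exact mem_EF.2 ⟨(Finset.subset_insert _ _).trans h1, x, hx, y, hy,
    fun h => hxA (Finset.mem_insert_of_mem h), fun h => hyA (Finset.mem_insert_of_mem h), hxy⟩

/-- the chain of the facets of the boundary of the simplex `W` with coefficients `θ`, signed -/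
def gg (K : Type*) [Field K] {n : ℕ} (W : Finset (Fin n)) :
    (Fin n → K) →ₗ[K] (Finset (Fin n) → K) where
  toFun θ T := if T ⊆ W ∧ T.card + 1 = W.card then ∑ x ∈ W \ T, sg K x W * θ x else 0
  map_add' θ η := by
    ext1 T
    rw [Pi.add_apply]
    split_ifs with h
    · rw [← Finset.sum_add_distrib]
      exact Finset.sum_congr rfl fun x _ => by rw [Pi.add_apply]; ring
    · rw [add_zero]
  map_smul' r θ := by
    ext1 T
    rw [RingHom.id_apply, Pi.smul_apply, smul_eq_mul]
    split_ifs with h
    · rw [Finset.mul_sum]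
      exact Finset.sum_congr rfl fun x _ => by rw [Pi.smul_apply, smul_eq_mul]; ring
    · rw [mul_zero]

theorem gg_erase (W : Finset (Fin n)) (θ : Fin n → K) {x : Fin n} (hx : x ∈ W) :
    gg K W θ (W.erase x) = sg K x W * θ x := by
  change (if (W.erase x) ⊆ W ∧ (W.erase x).card + 1 = W.card then
    ∑ y ∈ W \ (W.erase x), sg K y W * θ y else 0) = _
  have h1 : 0 < W.card := Finset.card_pos.2 ⟨x, hx⟩
  rw [if_pos ⟨Finset.erase_subset _ _, by rw [Finset.card_erase_of_mem hx]; omega⟩,
    Finset.sdiff_erase_self hx, Finset.sum_singleton]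

theorem gg_ne {W T : Finset (Fin n)} {θ : Fin n → K} (h : gg K W θ T ≠ 0) :
    T ⊆ W ∧ T.card + 1 = W.card := by
  by_contra h0
  exact h (if_neg h0)

theorem exists_sign (W : Finset (Fin n)) {x y : Fin n} (hx : x ∈ W) (hy : y ∈ W) (hxy : x ≠ y) :
    ∃ s : K, s ≠ 0 ∧ ∀ θ : Fin n → K, cd (gg K W θ) ((W.erase x).erase y) = s * (θ x - θ y) := by
  have ne : ∀ (j : Fin n) (S : Finset (Fin n)), sg K j S ≠ 0 := fun j S h => by
    have := sg_mul_self (k := K) j S
    rw [h, mul_zero] at this
    exact zero_ne_one this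
  have hy' : y ∈ W.erase x := Finset.mem_erase.2 ⟨hxy.symm, hy⟩
  have hx' : x ∈ W.erase y := Finset.mem_erase.2 ⟨hxy, hx⟩
  have i1 : insert y ((W.erase x).erase y) = W.erase x := Finset.insert_erase hy'
  have i2 : insert x ((W.erase x).erase y) = W.erase y := by
    rw [Finset.erase_right_comm]; exact Finset.insert_erase hx'
  set T := (W.erase x).erase y with hT
  have hxT : x ∉ T := by simp [hT]
  have hyT : y ∉ T := by simp [hT]
  have j1 : sg K x W = sg K x T * (if y < x then -1 else 1) := by
    have : W = insert x (insert y T) := by rw [i1]; exact (Finset.insert_erase hx).symm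
    have h2 : sg K x W = sg K x (insert x (insert y T)) := by rw [← this]
    rw [h2, sg_insert (by simp [hxT, hxy]), if_neg (lt_irrefl _), mul_one, sg_insert hyT]
  have j2 : sg K y W = sg K y T * (if x < y then -1 else 1) := by
    have : W = insert y (insert x T) := by rw [i2]; exact (Finset.insert_erase hy).symm
    have h2 : sg K y W = sg K y (insert y (insert x T)) := by rw [← this]
    rw [h2, sg_insert (by simp [hyT, hxy.symm]), if_neg (lt_irrefl _), mul_one, sg_insert hxT]
  refine ⟨sg K x T * sg K y T * (if x < y then 1 else -1), ?_, fun θ => ?_⟩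
  · refine mul_ne_zero (mul_ne_zero (ne _ _) (ne _ _)) ?_
    split_ifs
    · exact one_ne_zero
    · exact neg_ne_zero.2 one_ne_zero
  · have h1 : cd (gg K W θ) T = sg K x T * gg K W θ (insert x T) + sg K y T * gg K W θ (insert y T) := by
      unfold cd
      rw [← Finset.sum_pair hxy (f := fun j => sg K j T * gg K W θ (insert j T))]
      symm
      refine Finset.sum_subset ?_ ?_
      · intro z hz
        rw [Finset.mem_compl]
        rcases Finset.mem_insert.1 hz with rfl | hz
        · exact hxT
        · rw [Finset.mem_singleton.1 hz]; exact hyT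
      · intro z hz hz2
        have h3 : gg K W θ (insert z T) = 0 := by
          by_contra h4
          have h5 := (gg_ne h4).1 (Finset.mem_insert_self z T)
          rw [Finset.mem_compl, hT, Finset.mem_erase, Finset.mem_erase] at hz
          simp only [Finset.mem_insert, Finset.mem_singleton, not_or] at hz2
          exact hz ⟨hz2.2, hz2.1, h5⟩
        rw [h3, mul_zero]
    rw [h1, i1, i2, gg_erase W θ hx, gg_erase W θ hy, j1, j2]
    rcases lt_or_gt_of_ne hxy with h | h
    · rw [if_pos h, if_neg (not_lt.2 h.le), if_pos h]; ring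
    · rw [if_neg (not_lt.2 h.le), if_pos h, if_neg (not_lt.2 h.le)]; ring

/-- not adjacent -/
def NA (G : SimpleGraph (Fin n)) (W : Finset (Fin n)) (x y : {x : Fin n // x ∈ W}) : Prop :=
  ¬ G.Adj x.1 y.1

/-- a function on the classes as a function on `Fin n` -/
noncomputable def ex (K : Type*) [Field K] {n : ℕ} (G : SimpleGraph (Fin n)) (W : Finset (Fin n)) :
    (Quot (NA G W) → K) →ₗ[K] (Fin n → K) where
  toFun h x := open Classical in if hx : x ∈ W then h (Quot.mk _ ⟨x, hx⟩) else 0
  map_add' h h' := by
    classical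
    ext1 x
    by_cases hx : x ∈ W
    · simp [hx]
    · simp [hx]
  map_smul' r h := by
    classical
    ext1 x
    by_cases hx : x ∈ W
    · simp [hx]
    · simp [hx]

theorem ex_mem {G : SimpleGraph (Fin n)} {W : Finset (Fin n)} (h : Quot (NA G W) → K) {x : Fin n}
    (hx : x ∈ W) : ex K G W h x = h (Quot.mk _ ⟨x, hx⟩) := dif_pos hx

theorem top_cycles (G : SimpleGraph (Fin n)) (W : Finset (Fin n)) {t : ℕ} (ht : t + 2 = W.card) :
    Module.finrank K (ccycles K (EF G W) t) + 1 = Nat.card (Quot (NA G W)) := by
  classical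
  obtain ⟨v, hv0⟩ : W.Nonempty := Finset.card_pos.1 (by omega)
  have key : ∀ T : Finset (Fin n), T ⊆ W → T.card = t →
      ∃ x ∈ W, ∃ y ∈ W, x ≠ y ∧ T = (W.erase x).erase y := by
    intro T hT hc
    have h1 : (W \ T).card = 2 := by rw [Finset.card_sdiff_of_subset hT]; omega
    obtain ⟨x, y, hxy, h2⟩ := Finset.card_eq_two.1 h1
    have hx : x ∈ W \ T := by rw [h2]; simp
    have hy : y ∈ W \ T := by rw [h2]; simp
    refine ⟨x, (Finset.mem_sdiff.1 hx).1, y, (Finset.mem_sdiff.1 hy).1, hxy, ?_⟩
    rw [← Finset.sdiff_sdiff_eq_self hT, h2]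
    ext z
    simp only [Finset.mem_sdiff, Finset.mem_insert, Finset.mem_singleton, not_or, Finset.mem_erase]
    tauto
  have cdw : ∀ θ : Fin n → K, ∀ T, cd (gg K W θ) T ≠ 0 → T ⊆ W ∧ T.card = t := by
    intro θ T hT
    unfold cd at hT
    obtain ⟨j, hj, h⟩ := Finset.exists_ne_zero_of_sum_ne_zero hT
    have h1 : gg K W θ (insert j T) ≠ 0 := fun h0 => h (by rw [h0, mul_zero])
    obtain ⟨h2, h3⟩ := gg_ne h1
    rw [Finset.card_insert_of_notMem (by simpa using hj)] at h3
    exact ⟨(Finset.subset_insert _ _).trans h2, by omega⟩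
  let Φ : (Quot (NA G W) → K) →ₗ[K] (Finset (Fin n) → K) := cD K n ∘ₗ gg K W ∘ₗ ex K G W
  have hrange : LinearMap.range Φ = ccycles K (EF G W) t := by
    ext z
    constructor
    · rintro ⟨h, rfl⟩
      refine ⟨fun T hT => ?_, ?_⟩
      · change cd (gg K W (ex K G W h)) T ≠ 0 at hT
        obtain ⟨h1, h2⟩ := cdw _ T hT
        refine ⟨?_, h2⟩
        obtain ⟨x, hx, y, hy, hxy, rfl⟩ := key T h1 h2
        refine mem_EF.2 ⟨h1, x, hx, y, hy, by simp, by simp, ?_⟩
        by_contra hna
        obtain ⟨s, _, hs⟩ := exists_sign (K := K) W hx hy hxy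
        rw [hs, ex_mem h hx, ex_mem h hy] at hT
        have : (Quot.mk (NA G W) ⟨x, hx⟩) = Quot.mk (NA G W) ⟨y, hy⟩ := Quot.sound hna
        rw [this, sub_self, mul_zero] at hT
        exact hT rfl
      · change cd (cd (gg K W (ex K G W h))) = 0
        ext1 T
        exact cd_cd _ T
    · rintro ⟨hz1, hz2⟩
      have hz3 : cd z = 0 := hz2
      have e1 : cd (hv v z) = z := by
        ext1 A
        have := homotopy v z A
        rw [hz3] at this
        unfold hv at this ⊢
        simpa using this
      have e2 : ∀ A, hv v z A ≠ 0 → A ⊆ W ∧ A.card + 1 = W.card := by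
        intro A hA
        unfold hv at hA
        split_ifs at hA with h1
        · have h2 : z (A.erase v) ≠ 0 := fun h => hA (by rw [h, mul_zero])
          obtain ⟨h3, h4⟩ := hz1 _ h2
          have h5 := (mem_EF.1 h3).1
          refine ⟨fun x hx => ?_, ?_⟩
          · by_cases h6 : x = v
            · rw [h6]; exact hv0
            · exact h5 (Finset.mem_erase.2 ⟨h6, hx⟩)
          · rw [Finset.card_erase_of_mem h1] at h4
            have : 0 < A.card := Finset.card_pos.2 ⟨v, h1⟩
            omega
        · exact absurd rfl hA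
      let θ : Fin n → K := fun x => sg K x W * hv v z (W.erase x)
      have e3 : gg K W θ = hv v z := by
        ext1 T
        by_cases h : T ⊆ W ∧ T.card + 1 = W.card
        · have h1 : (W \ T).card = 1 := by rw [Finset.card_sdiff_of_subset h.1]; omega
          obtain ⟨x, h2⟩ := Finset.card_eq_one.1 h1
          have hx : x ∈ W \ T := by rw [h2]; simp
          have h3 : T = W.erase x := by
            rw [← Finset.sdiff_sdiff_eq_self h.1, h2, Finset.sdiff_singleton_eq_erase]
          rw [h3, gg_erase W θ (Finset.mem_sdiff.1 hx).1]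
          change sg K x W * (sg K x W * _) = _
          rw [← mul_assoc, sg_mul_self, one_mul]
        · have h1 : hv v z T = 0 := by
            by_contra h2
            exact h (e2 T h2)
          rw [h1]
          exact if_neg h
      have e4 : ∀ x y : {x : Fin n // x ∈ W}, NA G W x y → θ x.1 = θ y.1 := by
        intro x y hxy
        by_cases hne : x.1 = y.1
        · rw [hne]
        · obtain ⟨s, hs0, hs⟩ := exists_sign (K := K) W x.2 y.2 hne
          have h1 := hs θ
          rw [e3, e1] at h1
          have h2 : z ((W.erase x.1).erase y.1) = 0 := by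
            by_contra h3
            obtain ⟨h4, a, ha, b, hb, ha2, hb2, hab⟩ := mem_EF.1 (hz1 _ h3).1
            have h5 : ∀ c ∈ W, c ∉ (W.erase x.1).erase y.1 → c = x.1 ∨ c = y.1 := by
              intro c hc hc2
              rw [Finset.mem_erase, Finset.mem_erase] at hc2
              by_contra h6
              rw [not_or] at h6
              exact hc2 ⟨h6.2, h6.1, hc⟩
            rcases h5 a ha ha2 with h6 | h6 <;> rcases h5 b hb hb2 with h7 | h7
            · rw [h6, h7] at hab; exact hab.ne rfl
            · rw [h6, h7] at hab; exact hxy hab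
            · rw [h6, h7] at hab; exact hxy hab.symm
            · rw [h6, h7] at hab; exact hab.ne rfl
          rw [h2] at h1
          have h3 : θ x.1 - θ y.1 = 0 := by
            rcases mul_eq_zero.1 h1.symm with h | h
            · exact absurd h hs0
            · exact h
          exact sub_eq_zero.1 h3
      refine ⟨Quot.lift (fun x => θ x.1) e4, ?_⟩
      change cd (gg K W (ex K G W _)) = z
      have e5 : gg K W (ex K G W (Quot.lift (fun x => θ x.1) e4)) = gg K W θ := by
        ext1 T
        change (if T ⊆ W ∧ T.card + 1 = W.card then _ else 0) =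
          (if T ⊆ W ∧ T.card + 1 = W.card then _ else 0)
        split_ifs with h
        · refine Finset.sum_congr rfl fun x hx => ?_
          rw [ex_mem _ (Finset.mem_sdiff.1 hx).1]
        · rfl
      rw [e5, e3, e1]
  have hker : LinearMap.ker Φ = Submodule.span K {(1 : Quot (NA G W) → K)} := by
    ext h
    rw [Submodule.mem_span_singleton]
    constructor
    · intro hh
      have h1 : cd (gg K W (ex K G W h)) = 0 := hh
      refine ⟨h (Quot.mk _ ⟨v, hv0⟩), ?_⟩
      ext1 q
      induction q using Quot.ind with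
      | mk x =>
        rw [Pi.smul_apply, Pi.one_apply, smul_eq_mul, mul_one]
        by_cases hne : x.1 = v
        · congr 2
          exact Subtype.ext hne.symm
        · obtain ⟨s, hs0, hs⟩ := exists_sign (K := K) W x.2 hv0 hne
          have h2 := hs (ex K G W h)
          rw [h1, ex_mem h x.2, ex_mem h hv0] at h2
          rcases mul_eq_zero.1 h2.symm with h3 | h3
          · exact absurd h3 hs0
          · exact (sub_eq_zero.1 h3).symm
    · rintro ⟨r, rfl⟩
      change cd (gg K W (ex K G W _)) = 0
      ext1 T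
      by_contra hT
      obtain ⟨h1, h2⟩ := cdw _ T hT
      obtain ⟨x, hx, y, hy, hxy, rfl⟩ := key T h1 h2
      obtain ⟨s, _, hs⟩ := exists_sign (K := K) W hx hy hxy
      rw [hs, ex_mem _ hx, ex_mem _ hy] at hT
      apply hT
      simp
  have h := LinearMap.finrank_range_add_finrank_ker Φ
  have : Finite (Quot (NA G W)) := Quot.finite _
  have : Fintype (Quot (NA G W)) := Fintype.ofFinite _
  rw [hrange, hker, finrank_span_singleton, Module.finrank_pi, ← Nat.card_eq_fintype_card] at h
  · exact h
  · intro h0
    exact one_ne_zero (congrFun h0 (Quot.mk _ ⟨v, hv0⟩))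

end Pool.Agent.Q123.KB
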