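import Pool.Agent.Q123.KB.Rank

set_option autoImplicit false

/-!
The upper Koszul complexes of the square of the edge ideal of a cone.
-/

namespace Pool.Agent.Q123.KB

open Finset Pool.Agent.H677R3.EdgeReg

variable {n : ℕ} {K : Type*} [Field K]

/-- a set of old vertices as a set of vertices of the cone -/
def up (A : Finset (Fin n)) : Finset (Fin (n + 1)) := A.map Fin.castSuccEmb

/-- the old vertices of a set -/
def dn (T : Finset (Fin (n + 1))) : Finset (Fin n) := univ.filter fun i => i.castSucc ∈ T

theorem mem_up {A : Finset (Fin n)} {i : Fin n} : i.castSucc ∈ up A ↔ i ∈ A := by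
  unfold up
  rw [Finset.mem_map]
  constructor
  · rintro ⟨j, hj, h⟩
    have : j = i := Fin.castSucc_injective n h
    rwa [← this]
  · intro h; exact ⟨i, h, rfl⟩

theorem last_notMem_up (A : Finset (Fin n)) : Fin.last n ∉ up A := by
  unfold up
  rw [Finset.mem_map]
  rintro ⟨j, _, h⟩
  exact absurd h (Fin.castSucc_lt_last j).ne

theorem card_up (A : Finset (Fin n)) : (up A).card = A.card := Finset.card_map _

theorem dn_up (A : Finset (Fin n)) : dn (up A) = A := by
  ext i; simp [dn, mem_up]

theorem dn_insert (A : Finset (Fin n)) : dn (insert (Fin.last n) (up A)) = A := by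
  ext i
  simp only [dn, Finset.mem_filter, Finset.mem_univ, true_and, Finset.mem_insert, mem_up]
  constructor
  · rintro (h | h)
    · exact absurd h (Fin.castSucc_lt_last i).ne
    · exact h
  · exact Or.inr

theorem up_dn {T : Finset (Fin (n + 1))} (h : Fin.last n ∉ T) : up (dn T) = T := by
  ext x
  refine Fin.lastCases ?_ (fun i => ?_) x
  · exact ⟨fun h1 => absurd h1 (last_notMem_up _), fun h1 => absurd h1 h⟩
  · rw [mem_up]; simp [dn]

theorem insert_up_dn {T : Finset (Fin (n + 1))} (h : Fin.last n ∈ T) :
    insert (Fin.last n) (up (dn T)) = T := by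
  ext x
  refine Fin.lastCases ?_ (fun i => ?_) x
  · simp [h]
  · rw [Finset.mem_insert, mem_up]
    simp only [dn, Finset.mem_filter, Finset.mem_univ, true_and]
    constructor
    · rintro (h1 | h1)
      · exact absurd h1 (Fin.castSucc_lt_last i).ne
      · exact h1
    · exact Or.inr

theorem up_insert (A : Finset (Fin n)) (j : Fin n) : up (insert j A) = insert j.castSucc (up A) := by
  unfold up
  rw [Finset.map_insert]
  rfl

theorem compl_up (A : Finset (Fin n)) : (up A)ᶜ = insert (Fin.last n) (up Aᶜ) := by
  ext x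
  refine Fin.lastCases ?_ (fun i => ?_) x
  · simp [last_notMem_up]
  · rw [Finset.mem_compl, mem_up, Finset.mem_insert, mem_up, Finset.mem_compl]
    constructor
    · exact Or.inr
    · rintro (h1 | h1)
      · exact absurd h1 (Fin.castSucc_lt_last i).ne
      · exact h1

theorem compl_insert_up (A : Finset (Fin n)) : (insert (Fin.last n) (up A))ᶜ = up Aᶜ := by
  ext x
  refine Fin.lastCases ?_ (fun i => ?_) x
  · simp [last_notMem_up]
  · rw [Finset.mem_compl, Finset.mem_insert, mem_up, mem_up, Finset.mem_compl, not_or]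
    exact ⟨fun h => h.2, fun h => ⟨(Fin.castSucc_lt_last i).ne, h⟩⟩

theorem sg_up (A : Finset (Fin n)) (j : Fin n) : sg K j.castSucc (up A) = sg K j A := by
  unfold sg
  congr 1
  have : (up A).filter (· < j.castSucc) = up (A.filter (· < j)) := by
    ext x
    refine Fin.lastCases ?_ (fun i => ?_) x
    · rw [Finset.mem_filter]
      exact ⟨fun h => absurd h.1 (last_notMem_up _), fun h => absurd h (last_notMem_up _)⟩
    · rw [Finset.mem_filter, mem_up, mem_up, Finset.mem_filter, Fin.castSucc_lt_castSucc_iff]
  rw [this, card_up]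

theorem sg_insert_up (A : Finset (Fin n)) (j : Fin n) :
    sg K j.castSucc (insert (Fin.last n) (up A)) = sg K j A := by
  rw [sg_insert (last_notMem_up A), if_neg (not_lt.2 (Fin.castSucc_lt_last j).le), mul_one, sg_up]

theorem sg_last (A : Finset (Fin n)) : sg K (Fin.last n) (up A) = (-1) ^ A.card := by
  unfold sg
  congr 1
  rw [Finset.filter_true_of_mem, card_up]
  intro x
  refine Fin.lastCases (fun h => absurd h (last_notMem_up _)) (fun i _ => Fin.castSucc_lt_last i) x

/-- the part of a chain without the apex -/
def R0 (K : Type*) [Field K] (n : ℕ) :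
    (Finset (Fin (n + 1)) → K) →ₗ[K] (Finset (Fin n) → K) where
  toFun a A := a (up A)
  map_add' _ _ := rfl
  map_smul' _ _ := rfl

/-- the part of a chain with the apex -/
def R1 (K : Type*) [Field K] (n : ℕ) :
    (Finset (Fin (n + 1)) → K) →ₗ[K] (Finset (Fin n) → K) where
  toFun a A := a (insert (Fin.last n) (up A))
  map_add' _ _ := rfl
  map_smul' _ _ := rfl

theorem cd_up (a : Finset (Fin (n + 1)) → K) (A : Finset (Fin n)) :
    cd a (up A) = (-1) ^ A.card * R1 K n a A + cd (R0 K n a) A := by
  unfold cd
  rw [compl_up, Finset.sum_insert (last_notMem_up _), sg_last]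
  congr 1
  unfold up
  rw [Finset.sum_map]
  refine Finset.sum_congr rfl fun j _ => ?_
  have h1 := sg_up (K := K) A j
  have h2 := up_insert A j
  unfold up at h1 h2
  change sg K j.castSucc _ * a (insert j.castSucc _) = sg K j A * a _
  rw [h1, ← h2]
  rfl

theorem cd_insert_up (a : Finset (Fin (n + 1)) → K) (A : Finset (Fin n)) :
    cd a (insert (Fin.last n) (up A)) = cd (R1 K n a) A := by
  unfold cd
  rw [compl_insert_up]
  have h0 : ∀ f : Fin (n + 1) → K, ∑ j ∈ up Aᶜ, f j = ∑ j ∈ Aᶜ, f j.castSucc := by
    intro f
    unfold up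
    rw [Finset.sum_map]
    rfl
  rw [h0]
  refine Finset.sum_congr rfl fun j _ => ?_
  rw [sg_insert_up]
  congr 1
  change a _ = a _
  rw [up_insert, Finset.insert_comm]

/-- the chain with given parts -/
def glue (y z : Finset (Fin n) → K) : Finset (Fin (n + 1)) → K :=
  fun T => if Fin.last n ∈ T then z (dn T) else y (dn T)

theorem R0_glue (y z : Finset (Fin n) → K) : R0 K n (glue y z) = y := by
  ext1 A
  change glue y z (up A) = y A
  unfold glue
  rw [if_neg (last_notMem_up A), dn_up]

theorem R1_glue (y z : Finset (Fin n) → K) : R1 K n (glue y z) = z := by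
  ext1 A
  change glue y z (insert (Fin.last n) (up A)) = z A
  unfold glue
  rw [if_pos (Finset.mem_insert_self _ _), dn_insert]

theorem ext_R {a b : Finset (Fin (n + 1)) → K} (h0 : R0 K n a = R0 K n b)
    (h1 : R1 K n a = R1 K n b) : a = b := by
  ext1 T
  by_cases h : Fin.last n ∈ T
  · rw [← insert_up_dn h]
    exact congrFun h1 (dn T)
  · rw [← up_dn h]
    exact congrFun h0 (dn T)

/-- `F` is obtained from the sets `A ⊆ W` with at least two elements of `W` outside and from the sets
`A ∪ {apex}` with `A` in `H` and at least three elements of `W` outside `A` -/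
structure Rel (W : Finset (Fin n)) (H : Finset (Finset (Fin n)))
    (F : Finset (Finset (Fin (n + 1)))) : Prop where
  sub : ∀ A ∈ H, A ⊆ W
  e0 : ∀ A, up A ∈ F ↔ A ⊆ W ∧ A.card + 2 ≤ W.card
  e1 : ∀ A, insert (Fin.last n) (up A) ∈ F ↔ A ∈ H ∧ A.card + 3 ≤ W.card

theorem cyc_split {W : Finset (Fin n)} {H : Finset (Finset (Fin n))}
    {F : Finset (Finset (Fin (n + 1)))} (hR : Rel W H F) (t : ℕ) (ht : t + 3 ≤ W.card) :
    Module.finrank K (ccycles K F (t + 1)) =
      Module.finrank K (ccycles K H t) + Module.finrank K (ccycles K W.powerset (t + 1)) := by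
  classical
  have h := LinearMap.finrank_range_add_finrank_ker
    ((R1 K n).domRestrict (ccycles K F (t + 1)))
  rw [← h]
  have c0 : ∀ a ∈ cchains K F (t + 1), R0 K n a ∈ cchains K W.powerset (t + 1) := by
    intro a ha A hA
    obtain ⟨h1, h2⟩ := ha (up A) hA
    rw [card_up] at h2
    exact ⟨Finset.mem_powerset.2 ((hR.e0 A).1 h1).1, h2⟩
  have c1 : ∀ a ∈ cchains K F (t + 1), R1 K n a ∈ cchains K H t := by
    intro a ha A hA
    obtain ⟨h1, h2⟩ := ha (insert (Fin.last n) (up A)) hA
    rw [Finset.card_insert_of_notMem (last_notMem_up A), card_up] at h2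
    exact ⟨((hR.e1 A).1 h1).1, by omega⟩
  have c2 : ∀ y ∈ cchains K W.powerset (t + 1), ∀ z ∈ cchains K H t,
      glue y z ∈ cchains K F (t + 1) := by
    intro y hy z hz T hT
    unfold glue at hT
    split_ifs at hT with h1
    · obtain ⟨h2, h3⟩ := hz _ hT
      have h4 : insert (Fin.last n) (up (dn T)) ∈ F := (hR.e1 _).2 ⟨h2, by omega⟩
      rw [insert_up_dn h1] at h4
      refine ⟨h4, ?_⟩
      rw [← insert_up_dn h1, Finset.card_insert_of_notMem (last_notMem_up _), card_up, h3]
    · obtain ⟨h2, h3⟩ := hy _ hT
      have h4 : up (dn T) ∈ F := (hR.e0 _).2 ⟨Finset.mem_powerset.1 h2, by omega⟩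
      rw [up_dn h1] at h4
      refine ⟨h4, ?_⟩
      rw [← up_dn h1, card_up, h3]
  have d1 : ∀ a, cd a = 0 → cd (R1 K n a) = 0 := by
    intro a ha
    ext1 A
    rw [← cd_insert_up, ha]
    rfl
  have k0 : ∀ y : Finset (Fin n) → K, cd y = 0 → cd (glue y 0) = 0 := by
    intro y hy
    apply ext_R
    · ext1 A
      change cd (glue y 0) (up A) = 0
      rw [cd_up, R1_glue, R0_glue, hy]
      simp
    · ext1 A
      change cd (glue y 0) (insert (Fin.last n) (up A)) = 0
      rw [cd_insert_up, R1_glue]
      exact cd_zero A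
  congr 1
  · rw [LinearMap.range_domRestrict]
    have : ccycles K H t = (ccycles K F (t + 1)).map (R1 K n) := by
      ext z
      constructor
      · rintro ⟨hz1, hz2⟩
        obtain ⟨v, hv0⟩ : W.Nonempty := Finset.card_pos.1 (by omega)
        have hz3 : cd z = 0 := hz2
        have e1 : cd (hv v z) = z := by
          ext1 A
          have := homotopy v z A
          rw [hz3] at this
          unfold hv at this ⊢
          simpa using this
        have e2 : hv v z ∈ cchains K W.powerset (t + 1) := by
          intro A hA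
          unfold hv at hA
          split_ifs at hA with h1
          · have h2 : z (A.erase v) ≠ 0 := fun h => hA (by rw [h, mul_zero])
            obtain ⟨h3, h4⟩ := hz1 _ h2
            have h5 := hR.sub _ h3
            refine ⟨Finset.mem_powerset.2 fun x hx => ?_, ?_⟩
            · by_cases h6 : x = v
              · rw [h6]; exact hv0
              · exact h5 (Finset.mem_erase.2 ⟨h6, hx⟩)
            · rw [Finset.card_erase_of_mem h1] at h4
              have : 0 < A.card := Finset.card_pos.2 ⟨v, h1⟩
              omega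
          · exact absurd rfl hA
        have e3 : ∀ A, cd ((-(-1 : K) ^ t) • hv v z) A = -(-1 : K) ^ t * z A := by
          intro A
          have := cd_smul (-(-1 : K) ^ t) (hv v z) A
          rw [e1] at this
          exact this
        refine ⟨glue ((-(-1 : K) ^ t) • hv v z) z, ⟨c2 _ (Submodule.smul_mem _ _ e2) _ hz1, ?_⟩,
          R1_glue _ _⟩
        change cd _ = 0
        apply ext_R
        · ext1 A
          change cd (glue _ _) (up A) = 0
          rw [cd_up, R1_glue, R0_glue, e3]
          by_cases h0 : z A = 0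
          · rw [h0]; ring
          · rw [(hz1 A h0).2]; ring
        · ext1 A
          change cd (glue _ _) (insert (Fin.last n) (up A)) = 0
          rw [cd_insert_up, R1_glue, hz3]
          rfl
      · rintro ⟨a, ⟨ha1, ha2⟩, rfl⟩
        exact ⟨c1 a ha1, d1 a ha2⟩
    rw [this]
  · let e : LinearMap.ker ((R1 K n).domRestrict (ccycles K F (t + 1))) ≃ₗ[K]
        ccycles K W.powerset (t + 1) :=
      { toFun := fun a => ⟨R0 K n a.1.1, c0 _ a.1.2.1, by
          have h1 : R1 K n a.1.1 = 0 := a.2
          have h2 : cd a.1.1 = 0 := a.1.2.2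
          change cd (R0 K n a.1.1) = 0
          ext1 A
          have h3 := cd_up a.1.1 A
          rw [h1, h2] at h3
          simpa using h3.symm⟩
        map_add' := fun a b => rfl
        map_smul' := fun r a => rfl
        invFun := fun y => ⟨⟨glue y.1 0, c2 _ y.2.1 _ (Submodule.zero_mem _), k0 _ y.2.2⟩, R1_glue _ _⟩
        left_inv := by
          intro a
          apply Subtype.ext
          apply Subtype.ext
          have h1 : R1 K n a.1.1 = 0 := a.2
          apply ext_R
          · exact R0_glue _ _
          · exact (R1_glue _ _).trans h1.symm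
        right_inv := by
          intro y
          apply Subtype.ext
          exact R0_glue _ _ }
    exact e.finrank_eq

end Pool.Agent.Q123.KB
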