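import Pool.Agent.H677R3.RegKoszul

set_option autoImplicit false

/-!
Betti numbers of monomial ideals over an arbitrary field, as dimensions of the multigraded
components of Koszul homology.
-/

namespace Pool.Agent.Q123.KB

open Finset MvPolynomial Pool.Agent.H677R3.EdgeReg

variable {n : ℕ} {K : Type*} [Field K]

/-- the ideal of `K[x_1,…,x_n]` generated by the monomials with exponent in `A` -/
noncomputable def monIdeal (K : Type*) [Field K] {n : ℕ} (A : Set (Fin n →₀ ℕ)) :
    Ideal (MvPolynomial (Fin n) K) :=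
  Ideal.span ((fun s => monomial s (1 : K)) '' A)

/-- The `i`-chains of multidegree `b` of the Koszul complex of `x_1,…,x_n` with coefficients in the
ideal `J`: a chain assigns to every set `T` of `i` variables the coefficient in `J` of the basis
element `e_T`, whose multidegree is the indicator vector `ind T`. -/
noncomputable def chains (J : Ideal (MvPolynomial (Fin n) K)) (i : ℕ) (b : Fin n →₀ ℕ) :
    Submodule K (Finset (Fin n) → MvPolynomial (Fin n) K) where
  carrier := {f | (∀ T, f T ∈ J) ∧ (∀ T, ∀ c ∈ (f T).support, c + ind T = b) ∧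
    ∀ T, T.card ≠ i → f T = 0}
  zero_mem' := ⟨fun _ => J.zero_mem, fun T c hc => by simp at hc, fun _ _ => rfl⟩
  add_mem' := by
    classical
    rintro f g ⟨hf1, hf2, hf3⟩ ⟨hg1, hg2, hg3⟩
    refine ⟨fun T => J.add_mem (hf1 T) (hg1 T), fun T c hc => ?_, fun T hT => ?_⟩
    · have := MvPolynomial.support_add hc
      rcases Finset.mem_union.1 this with h | h
      · exact hf2 T c h
      · exact hg2 T c h
    · rw [Pi.add_apply, hf3 T hT, hg3 T hT, add_zero]
  smul_mem' := by
    rintro r f ⟨hf1, hf2, hf3⟩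
    refine ⟨fun T => ?_, fun T c hc => hf2 T c (MvPolynomial.support_smul hc), fun T hT => ?_⟩
    · rw [Pi.smul_apply, MvPolynomial.smul_eq_C_mul]
      exact J.mul_mem_left _ (hf1 T)
    · rw [Pi.smul_apply, hf3 T hT, smul_zero]

/-- the Koszul differential as a linear map -/
noncomputable def D (K : Type*) [Field K] (n : ℕ) :
    (Finset (Fin n) → MvPolynomial (Fin n) K) →ₗ[K] (Finset (Fin n) → MvPolynomial (Fin n) K) where
  toFun := koszulD
  map_add' f g := by
    ext1 T
    unfold koszulD
    rw [Pi.add_apply, ← Finset.sum_add_distrib]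
    exact Finset.sum_congr rfl fun j _ => by rw [Pi.add_apply]; ring
  map_smul' r f := by
    ext1 T
    unfold koszulD
    rw [RingHom.id_apply, Pi.smul_apply, Finset.smul_sum]
    refine Finset.sum_congr rfl fun j _ => ?_
    rw [Pi.smul_apply, MvPolynomial.smul_eq_C_mul, MvPolynomial.smul_eq_C_mul]
    ring

/-- the cycles of degree `i` and multidegree `b` -/
noncomputable def cycles (J : Ideal (MvPolynomial (Fin n) K)) (i : ℕ) (b : Fin n →₀ ℕ) :
    Submodule K (Finset (Fin n) → MvPolynomial (Fin n) K) :=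
  chains J i b ⊓ LinearMap.ker (D K n)

/-- the boundaries of the chains of degree `i + 1` and multidegree `b` -/
noncomputable def boundaries (J : Ideal (MvPolynomial (Fin n) K)) (i : ℕ) (b : Fin n →₀ ℕ) :
    Submodule K (Finset (Fin n) → MvPolynomial (Fin n) K) :=
  (chains J (i + 1) b).map (D K n)

/-- The multigraded Betti number `β_{i,b}(J) = dim_K Tor_i(J, K)_b`: the dimension of the component
of multidegree `b` of the `i`-th homology of the Koszul complex with coefficients in `J`. -/
noncomputable def gradedBetti (J : Ideal (MvPolynomial (Fin n) K)) (i : ℕ) (b : Fin n →₀ ℕ) : ℕ :=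
  Module.finrank K (↥(cycles J i b) ⧸ (boundaries J i b).submoduleOf (cycles J i b))

/-- The Betti number `β_i(J) = dim_K Tor_i(J, K)`: the sum of the multigraded Betti numbers over all
multidegrees. -/
noncomputable def betti (J : Ideal (MvPolynomial (Fin n) K)) (i : ℕ) : ℕ∞ :=
  ⨆ s : Finset (Fin n →₀ ℕ), ∑ b ∈ s, (gradedBetti J i b : ℕ∞)

/-! ### combinatorial form -/

/-- functions supported on the members of `F` with `i` elements -/
def cchains (K : Type*) [Field K] {n : ℕ} (F : Finset (Finset (Fin n))) (i : ℕ) :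
    Submodule K (Finset (Fin n) → K) where
  carrier := {a | ∀ T, a T ≠ 0 → T ∈ F ∧ T.card = i}
  zero_mem' := fun T h => absurd rfl h
  add_mem' := by
    intro a b ha hb T h
    by_cases h1 : a T = 0
    · refine hb T fun h2 => h ?_
      rw [Pi.add_apply, h1, h2, add_zero]
    · exact ha T h1
  smul_mem' := by
    intro r a ha T h
    refine ha T fun h2 => h ?_
    rw [Pi.smul_apply, h2, smul_zero]

/-- the combinatorial differential as a linear map -/
def cD (K : Type*) [Field K] (n : ℕ) : (Finset (Fin n) → K) →ₗ[K] (Finset (Fin n) → K) where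
  toFun := cd
  map_add' a b := by ext1 T; exact cd_add a b T
  map_smul' r a := by ext1 T; exact cd_smul r a T

/-- the cycles -/
def ccycles (K : Type*) [Field K] {n : ℕ} (F : Finset (Finset (Fin n))) (i : ℕ) :
    Submodule K (Finset (Fin n) → K) :=
  cchains K F i ⊓ LinearMap.ker (cD K n)

/-- the boundaries -/
def cboundaries (K : Type*) [Field K] {n : ℕ} (F : Finset (Finset (Fin n))) (i : ℕ) :
    Submodule K (Finset (Fin n) → K) :=
  (cchains K F (i + 1)).map (cD K n)

/-- the dimension of the homology of the family `F` -/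
noncomputable def combBetti (K : Type*) [Field K] {n : ℕ} (F : Finset (Finset (Fin n))) (i : ℕ) :
    ℕ :=
  Module.finrank K (↥(ccycles K F i) ⧸ (cboundaries K F i).submoduleOf (ccycles K F i))

/-- the upper Koszul complex of the monomial ideal with exponents `P` at `b` -/
noncomputable def fam (P : (Fin n → ℕ) → Prop) (b : Fin n →₀ ℕ) : Finset (Finset (Fin n)) :=
  open Classical in univ.filter fun T => KK P b T

theorem mem_fam (P : (Fin n → ℕ) → Prop) (b : Fin n →₀ ℕ) (T : Finset (Fin n)) :
    T ∈ fam P b ↔ KK P b T := by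
  classical
  simp [fam]

/-- the homogeneous chain with the given coefficients -/
noncomputable def lift (b : Fin n →₀ ℕ) (a : Finset (Fin n) → K) :
    Finset (Fin n) → MvPolynomial (Fin n) K :=
  fun T => monomial (b - ind T) (a T)

theorem lift_mem {J : Ideal (MvPolynomial (Fin n) K)} {P : (Fin n → ℕ) → Prop}
    (hJ : ∀ p, p ∈ J ↔ ∀ c ∈ p.support, P ⇑c) {i : ℕ} {b : Fin n →₀ ℕ} {a : Finset (Fin n) → K}
    (ha : a ∈ cchains K (fam P b) i) : lift b a ∈ chains J i b := by
  classical
  refine ⟨fun T => ?_, fun T c hc => ?_, fun T hT => ?_⟩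
  · rw [hJ]
    intro c hc
    unfold lift at hc
    rw [support_monomial] at hc
    split_ifs at hc with h0
    · simp at hc
    · rw [Finset.mem_singleton] at hc
      subst hc
      exact ((mem_fam P b T).1 (ha T h0).1).2
  · unfold lift at hc
    rw [support_monomial] at hc
    split_ifs at hc with h0
    · simp at hc
    · rw [Finset.mem_singleton] at hc
      subst hc
      exact tsub_add_cancel_of_le ((mem_fam P b T).1 (ha T h0).1).1
  · unfold lift
    have : a T = 0 := by
      by_contra h
      exact hT (ha T h).2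
    rw [this, monomial_zero]

theorem comp_mem {J : Ideal (MvPolynomial (Fin n) K)} {P : (Fin n → ℕ) → Prop}
    (hJ : ∀ p, p ∈ J ↔ ∀ c ∈ p.support, P ⇑c) {i : ℕ} {b : Fin n →₀ ℕ}
    {f : Finset (Fin n) → MvPolynomial (Fin n) K}
    (hf : f ∈ chains J i b) : comp f b ∈ cchains K (fam P b) i := by
  classical
  intro T h
  unfold comp at h
  split_ifs at h with hle
  · refine ⟨(mem_fam P b T).2 ⟨hle, (hJ _).mp (hf.1 T) _ (MvPolynomial.mem_support_iff.mpr h)⟩, ?_⟩
    by_contra hne
    rw [hf.2.2 T hne] at h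
    simp at h
  · exact absurd rfl h

theorem lift_comp {J : Ideal (MvPolynomial (Fin n) K)} {i : ℕ} {b : Fin n →₀ ℕ}
    {f : Finset (Fin n) → MvPolynomial (Fin n) K}
    (hf : f ∈ chains J i b) : lift b (comp f b) = f := by
  classical
  ext1 T
  ext c
  unfold lift comp
  rw [coeff_monomial]
  by_cases h : coeff c (f T) = 0
  · rw [h]
    split_ifs with h1 h2
    · rw [h1, h]
    · rfl
    · rfl
  · have h1 := hf.2.1 T c (mem_support_iff.2 h)
    have h2 : ind T ≤ b := by rw [← h1]; exact le_add_self
    have h3 : b - ind T = c := by rw [← h1]; exact add_tsub_cancel_right c (ind T)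
    rw [if_pos h3, if_pos h2, h3]

theorem comp_lift {P : (Fin n → ℕ) → Prop} {i : ℕ} {b : Fin n →₀ ℕ} {a : Finset (Fin n) → K}
    (ha : a ∈ cchains K (fam P b) i) : comp (lift b a) b = a := by
  classical
  ext1 T
  unfold lift comp
  rw [coeff_monomial, if_pos rfl]
  by_cases h : ind T ≤ b
  · rw [if_pos h]
  · rw [if_neg h]
    by_contra h0
    exact h ((mem_fam P b T).1 (ha T (fun h1 => h0 h1.symm)).1).1

theorem comp_D (f : Finset (Fin n) → MvPolynomial (Fin n) K) (b : Fin n →₀ ℕ) :
    comp (D K n f) b = cd (comp f b) := by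
  ext1 T
  exact comp_koszulD f b T

theorem comp_add (f g : Finset (Fin n) → MvPolynomial (Fin n) K) (b : Fin n →₀ ℕ) :
    comp (f + g) b = comp f b + comp g b := by
  classical
  ext1 T
  unfold comp
  rw [Pi.add_apply, Pi.add_apply]
  split_ifs with h
  · exact coeff_add _ _ _
  · rw [add_zero]

theorem comp_smul (r : K) (f : Finset (Fin n) → MvPolynomial (Fin n) K) (b : Fin n →₀ ℕ) :
    comp (r • f) b = r • comp f b := by
  classical
  ext1 T
  unfold comp
  rw [Pi.smul_apply, Pi.smul_apply]
  split_ifs with h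
  · exact coeff_smul _ _ _
  · rw [smul_zero]

/-- the differential preserves the multidegree -/
theorem D_support {J : Ideal (MvPolynomial (Fin n) K)} {i : ℕ} {b : Fin n →₀ ℕ}
    {f : Finset (Fin n) → MvPolynomial (Fin n) K} (hf : f ∈ chains J (i + 1) b) :
    D K n f ∈ chains J i b := by
  classical
  have hD : ∀ T, D K n f T = ∑ j ∈ Tᶜ, (-1) ^ (T.filter (· < j)).card * (X j * f (insert j T)) :=
    fun T => rfl
  refine ⟨fun T => ?_, fun T c hc => ?_, fun T hT => ?_⟩
  · rw [hD]
    exact J.sum_mem fun j _ => J.mul_mem_left _ (J.mul_mem_left _ (hf.1 _))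
  · rw [mem_support_iff, hD, coeff_sum] at hc
    obtain ⟨j, hj, h⟩ := Finset.exists_ne_zero_of_sum_ne_zero hc
    rw [coeff_neg_one_pow_mul] at h
    have h1 : coeff c (X j * f (insert j T)) ≠ 0 := fun h0 => h (by rw [h0, mul_zero])
    rw [coeff_X_mul'] at h1
    split_ifs at h1 with h2
    · have h3 := hf.2.1 (insert j T) _ (mem_support_iff.2 h1)
      rw [ind_insert (by simpa using hj)] at h3
      have h4 : Finsupp.single j 1 ≤ c := by
        rw [Finsupp.single_le_iff]
        exact Nat.one_le_iff_ne_zero.2 (Finsupp.mem_support_iff.1 h2)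
      have h5 : c - Finsupp.single j 1 + Finsupp.single j 1 = c := tsub_add_cancel_of_le h4
      rw [← h3, add_comm (ind T), ← add_assoc, h5]
    · exact absurd rfl h1
  · rw [hD]
    refine Finset.sum_eq_zero fun j hj => ?_
    rw [hf.2.2 _ (by rw [Finset.card_insert_of_notMem (by simpa using hj)]; omega), mul_zero, mul_zero]

theorem gradedBetti_eq {J : Ideal (MvPolynomial (Fin n) K)} {P : (Fin n → ℕ) → Prop}
    (hJ : ∀ p, p ∈ J ↔ ∀ c ∈ p.support, P ⇑c) (i : ℕ) (b : Fin n →₀ ℕ) :
    gradedBetti J i b = combBetti K (fam P b) i := by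
  classical
  have hcyc : ∀ f ∈ cycles J i b, comp f b ∈ ccycles K (fam P b) i := by
    rintro f ⟨h1, h2⟩
    refine ⟨comp_mem hJ h1, ?_⟩
    change cd (comp f b) = 0
    rw [← comp_D, LinearMap.mem_ker.1 h2]
    ext1 T
    unfold comp
    simp
  let φ : ↥(cycles J i b) →ₗ[K]
      (↥(ccycles K (fam P b) i) ⧸ (cboundaries K (fam P b) i).submoduleOf (ccycles K (fam P b) i)) :=
    { toFun := fun f => Submodule.Quotient.mk ⟨comp f.1 b, hcyc f.1 f.2⟩
      map_add' := by
        intro f g
        rw [← Submodule.Quotient.mk_add]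
        congr 1
        exact Subtype.ext (comp_add f.1 g.1 b)
      map_smul' := by
        intro r f
        rw [RingHom.id_apply, ← Submodule.Quotient.mk_smul]
        congr 1
        exact Subtype.ext (comp_smul r f.1 b) }
  have hsurj : Function.Surjective φ := by
    intro x
    obtain ⟨⟨a, ha1, ha2⟩, rfl⟩ := Submodule.Quotient.mk_surjective _ x
    refine ⟨⟨lift b a, lift_mem hJ ha1, ?_⟩, ?_⟩
    · change D K n (lift b a) = 0
      by_cases hi : ∃ i', i = i' + 1
      · obtain ⟨i', rfl⟩ := hi
        have h3 := D_support (lift_mem hJ ha1)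
        rw [← lift_comp h3, comp_D, comp_lift ha1]
        have h4 : cd a = 0 := ha2
        rw [h4]
        ext1 T
        unfold lift
        simp
      · have hi0 : i = 0 := by
          rcases i with _ | i'
          · rfl
          · exact absurd ⟨i', rfl⟩ hi
        subst hi0
        ext1 T
        change koszulD (lift b a) T = 0
        unfold koszulD
        refine Finset.sum_eq_zero fun j hj => ?_
        rw [(lift_mem hJ ha1).2.2 _ (by rw [Finset.card_insert_of_notMem (by simpa using hj)]; omega),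
          mul_zero, mul_zero]
    · change Submodule.Quotient.mk (⟨comp (lift b a) b, _⟩ : ↥(ccycles K (fam P b) i)) = _
      congr 1
      exact Subtype.ext (comp_lift ha1)
  have hker : LinearMap.ker φ = (boundaries J i b).submoduleOf (cycles J i b) := by
    ext ⟨f, hf1, hf2⟩
    rw [LinearMap.mem_ker]
    change Submodule.Quotient.mk (⟨comp f b, _⟩ : ↥(ccycles K (fam P b) i)) = 0 ↔ _
    rw [Submodule.Quotient.mk_eq_zero]
    change (∃ g ∈ cchains K (fam P b) (i + 1), cd g = comp f b) ↔
      ∃ g ∈ chains J (i + 1) b, D K n g = f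
    constructor
    · rintro ⟨g, hg, h⟩
      refine ⟨lift b g, lift_mem hJ hg, ?_⟩
      rw [← lift_comp (D_support (lift_mem hJ hg)), comp_D, comp_lift hg, h, lift_comp hf1]
    · rintro ⟨g, hg, h⟩
      refine ⟨comp g b, comp_mem hJ hg, ?_⟩
      rw [← comp_D, h]
  unfold gradedBetti combBetti
  rw [← hker]
  exact (φ.quotKerEquivOfSurjective hsurj).finrank_eq

theorem combBetti_le (F : Finset (Finset (Fin n))) (i : ℕ) : combBetti K F i ≤ 2 ^ n := by
  unfold combBetti
  refine (Submodule.finrank_quotient_le _).trans ?_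
  refine (Submodule.finrank_le _).trans ?_
  rw [Module.finrank_pi]
  simp

theorem combBetti_eq_zero {F : Finset (Finset (Fin n))} {i : ℕ}
    (h : ∀ a ∈ ccycles K F i, a ∈ cboundaries K F i) : combBetti K F i = 0 := by
  unfold combBetti
  have : (cboundaries K F i).submoduleOf (ccycles K F i) = ⊤ := by
    rw [eq_top_iff]
    rintro ⟨a, ha⟩ -
    exact h a ha
  rw [this]
  have : Subsingleton (↥(ccycles K F i) ⧸ (⊤ : Submodule K ↥(ccycles K F i))) :=
    Submodule.Quotient.subsingleton_iff.2 rfl
  exact Module.finrank_zero_of_subsingleton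

theorem one_le_combBetti {F : Finset (Finset (Fin n))} {i : ℕ} {a : Finset (Fin n) → K}
    (ha : a ∈ ccycles K F i) (h : a ∉ cboundaries K F i) : 1 ≤ combBetti K F i := by
  unfold combBetti
  rw [Nat.one_le_iff_ne_zero]
  intro h0
  have : Module.Finite K (↥(ccycles K F i) ⧸ (cboundaries K F i).submoduleOf (ccycles K F i)) :=
    inferInstance
  have h1 := Module.finrank_zero_iff.1 h0
  have h2 : (Submodule.Quotient.mk ⟨a, ha⟩ :
      ↥(ccycles K F i) ⧸ (cboundaries K F i).submoduleOf (ccycles K F i)) = 0 :=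
    Subsingleton.elim _ _
  rw [Submodule.Quotient.mk_eq_zero] at h2
  exact h h2

theorem mem_monIdeal (A : Set (Fin n →₀ ℕ)) (p : MvPolynomial (Fin n) K) :
    p ∈ monIdeal K A ↔ ∀ c ∈ p.support, ∃ s ∈ A, s ≤ c := by
  unfold monIdeal
  exact mem_ideal_span_monomial_image

open scoped Pointwise in
theorem monIdeal_mul (A B : Set (Fin n →₀ ℕ)) :
    monIdeal K A * monIdeal K B = monIdeal K (A + B) := by
  unfold monIdeal
  rw [Ideal.span_mul_span']
  congr 1
  ext f
  simp only [Set.mem_mul, Set.mem_image, Set.mem_add]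
  constructor
  · rintro ⟨_, ⟨a, ha, rfl⟩, _, ⟨b, hb, rfl⟩, rfl⟩
    exact ⟨a + b, ⟨a, ha, b, hb, rfl⟩, by rw [monomial_mul, one_mul]⟩
  · rintro ⟨_, ⟨a, ha, b, hb, rfl⟩, rfl⟩
    exact ⟨_, ⟨a, ha, rfl⟩, _, ⟨b, hb, rfl⟩, by rw [monomial_mul, one_mul]⟩

end Pool.Agent.Q123.KB
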