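import Pool.Agent.Q123.KB.Cone
import Pool.Agent.Q123.KB.Comp

set_option autoImplicit false

/-!
Field-dependence of the Betti numbers of the square of the edge ideal of a cone.
-/

namespace Pool.Agent.Q123.KB

open Finset MvPolynomial Pool.Agent.H677R3.EdgeReg

variable {n : ℕ} {K : Type*} [Field K]

/-- the edge ideal `(x_i x_j : {i, j} an edge)` of a graph in `K[x_1,…,x_n]` -/
noncomputable def edgeIdeal (K : Type*) [Field K] {n : ℕ} (G : SimpleGraph (Fin n)) :
    Ideal (MvPolynomial (Fin n) K) :=
  Ideal.span {p | ∃ i j, G.Adj i j ∧ p = X i * X j}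

/-- the cone over the graph `G`: the new vertex `Fin.last n` is joined to all vertices of `G` -/
def coneGraph {n : ℕ} (G : SimpleGraph (Fin n)) : SimpleGraph (Fin (n + 1)) where
  Adj a b := a ≠ b ∧ (a = Fin.last n ∨ b = Fin.last n ∨
    ∃ i j, G.Adj i j ∧ a = i.castSucc ∧ b = j.castSucc)
  symm := by
    constructor
    intro a b h
    refine ⟨h.1.symm, ?_⟩
    rcases h.2 with h | h | ⟨i, j, h1, h2, h3⟩
    · exact Or.inr (Or.inl h)
    · exact Or.inl h
    · exact Or.inr (Or.inr ⟨j, i, h1.symm, h3, h2⟩)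
  loopless := ⟨fun a h => h.1 rfl⟩

/-- The graded Betti number `β_{i,j}(J) = dim_K Tor_i(J, K)_j`: the sum of the multigraded Betti
numbers `β_{i,b}(J)` over all multidegrees `b` of total degree `j`. -/
noncomputable def degBetti {n : ℕ} (J : Ideal (MvPolynomial (Fin n) K)) (i j : ℕ) : ℕ :=
  ∑ b ∈ Finset.finsuppAntidiag (Finset.univ : Finset (Fin n)) j, gradedBetti J i b

/-- the exponents of the generators of an edge ideal -/
def eset (G : SimpleGraph (Fin n)) : Set (Fin n →₀ ℕ) :=
  {s | ∃ i j, G.Adj i j ∧ s = Finsupp.single i 1 + Finsupp.single j 1}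

theorem edgeIdeal_eq (G : SimpleGraph (Fin n)) : edgeIdeal K G = monIdeal K (eset G) := by
  unfold edgeIdeal monIdeal
  congr 1
  ext p
  constructor
  · rintro ⟨i, j, h, rfl⟩
    refine ⟨_, ⟨i, j, h, rfl⟩, ?_⟩
    change monomial (Finsupp.single i 1 + Finsupp.single j 1) (1 : K) = X i * X j
    rw [X, X, monomial_mul, one_mul]
  · rintro ⟨_, ⟨i, j, h, rfl⟩, rfl⟩
    refine ⟨i, j, h, ?_⟩
    change monomial (Finsupp.single i 1 + Finsupp.single j 1) (1 : K) = X i * X j
    rw [X, X, monomial_mul, one_mul]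

/-- monomials in the edge ideal -/
def P1 (G : SimpleGraph (Fin n)) (c : Fin n → ℕ) : Prop := ∃ i j, G.Adj i j ∧ 1 ≤ c i ∧ 1 ≤ c j

theorem mem_edge (G : SimpleGraph (Fin n)) (p : MvPolynomial (Fin n) K) :
    p ∈ edgeIdeal K G ↔ ∀ c ∈ p.support, P1 G ⇑c := by
  rw [edgeIdeal_eq, mem_monIdeal]
  refine forall₂_congr fun c _ => ?_
  constructor
  · rintro ⟨_, ⟨i, j, h, rfl⟩, hle⟩
    refine ⟨i, j, h, ?_, ?_⟩
    · have := hle i
      rw [Finsupp.add_apply, Finsupp.single_eq_same] at this
      omega
    · have := hle j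
      rw [Finsupp.add_apply, Finsupp.single_eq_same] at this
      omega
  · rintro ⟨i, j, h, h1, h2⟩
    refine ⟨_, ⟨i, j, h, rfl⟩, fun v => ?_⟩
    rw [Finsupp.add_apply, Finsupp.single_apply, Finsupp.single_apply]
    have hne := h.ne
    split_ifs with a b
    · exact absurd (a.trans b.symm) hne
    · rw [← a]; omega
    · rename_i b; rw [← b]; omega
    · omega

/-- monomials in the square of the edge ideal -/
def P2 (G : SimpleGraph (Fin n)) (c : Fin n → ℕ) : Prop :=
  ∃ i j i' j', G.Adj i j ∧ G.Adj i' j' ∧ ∀ v,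
    (Finsupp.single i 1 + Finsupp.single j 1 + (Finsupp.single i' 1 + Finsupp.single j' 1) :
      Fin n →₀ ℕ) v ≤ c v

open scoped Pointwise in
theorem mem_sq (G : SimpleGraph (Fin n)) (p : MvPolynomial (Fin n) K) :
    p ∈ edgeIdeal K G ^ 2 ↔ ∀ c ∈ p.support, P2 G ⇑c := by
  rw [pow_two, edgeIdeal_eq, monIdeal_mul, mem_monIdeal]
  refine forall₂_congr fun c _ => ?_
  constructor
  · rintro ⟨_, ⟨_, ⟨i, j, h, rfl⟩, _, ⟨i', j', h', rfl⟩, rfl⟩, hle⟩
    exact ⟨i, j, i', j', h, h', hle⟩
  · rintro ⟨i, j, i', j', h, h', hle⟩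
    exact ⟨_, ⟨_, ⟨i, j, h, rfl⟩, _, ⟨i', j', h', rfl⟩, rfl⟩, hle⟩

theorem fam_down (P : (Fin n → ℕ) → Prop) (hP : ∀ u w : Fin n → ℕ, (∀ v, u v ≤ w v) → P u → P w)
    (b : Fin n →₀ ℕ) : Down (fam P b) := by
  intro T j h
  rw [mem_fam] at h ⊢
  have h0 : ind T ≤ ind (insert j T) := by
    intro v
    rw [ind_apply, ind_apply]
    split_ifs with h1 h2
    · exact le_refl _
    · exact absurd (Finset.mem_insert_of_mem h1) h2
    · omega
    · exact le_refl _
  refine ⟨h0.trans h.1, hP _ _ (fun v => ?_) h.2⟩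
  have h1 := h0 v
  change b v - ind (insert j T) v ≤ b v - ind T v
  omega

theorem P1_mono (G : SimpleGraph (Fin n)) : ∀ u w : Fin n → ℕ, (∀ v, u v ≤ w v) → P1 G u → P1 G w := by
  rintro u w h ⟨i, j, h1, h2, h3⟩
  exact ⟨i, j, h1, h2.trans (h i), h3.trans (h j)⟩

theorem P2_mono (G : SimpleGraph (Fin n)) : ∀ u w : Fin n → ℕ, (∀ v, u v ≤ w v) → P2 G u → P2 G w := by
  rintro u w h ⟨i, j, i', j', h1, h2, h3⟩
  exact ⟨i, j, i', j', h1, h2, fun v => (h3 v).trans (h v)⟩

/-- multidegrees which are not squarefree do not contribute to an edge ideal -/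
theorem comb_not_sqfree (G : SimpleGraph (Fin n)) (b : Fin n →₀ ℕ) {v : Fin n} (hv : 2 ≤ b v)
    (i : ℕ) : combBetti K (fam (P1 G) b) i = 0 := by
  refine combBetti_eq_zero fun a ha => cone_bd ha v fun T hT hvT => ?_
  obtain ⟨h1, h2⟩ := ha.1 T hT
  rw [mem_fam] at h1 ⊢
  obtain ⟨h3, x, y, h4, h5, h6⟩ := h1
  have h7 : ∀ z, ind (insert v T) z = ind T z + if z = v then 1 else 0 := by
    intro z
    rw [ind_insert hvT, Finsupp.add_apply, Finsupp.single_apply]
    congr 1
    by_cases h : z = v
    · rw [if_pos h, if_pos h.symm]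
    · rw [if_neg h, if_neg (fun h' => h h'.symm)]
  have h8 : ind T v = 0 := by rw [ind_apply, if_neg hvT]
  have h9 : ∀ z, 1 ≤ (b - ind T) z → 1 ≤ (b - ind (insert v T)) z := by
    intro z hz
    rw [Finsupp.tsub_apply] at hz ⊢
    rw [h7]
    split_ifs with h
    · rw [h, h8]; omega
    · exact hz
  refine ⟨fun z => ?_, x, y, h4, h9 x h5, h9 y h6⟩
  rw [h7]
  split_ifs with h
  · rw [h, h8]; omega
  · exact h3 z

theorem fam_sqfree (G : SimpleGraph (Fin n)) (W : Finset (Fin n)) :
    fam (P1 G) (ind W) = EF G W := by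
  ext A
  rw [mem_fam, mem_EF]
  have h0 : ind A ≤ ind W ↔ A ⊆ W := by
    constructor
    · intro h x hx
      have := h x
      rw [ind_apply, ind_apply, if_pos hx] at this
      by_contra h1
      rw [if_neg h1] at this
      omega
    · intro h x
      rw [ind_apply, ind_apply]
      split_ifs with h1 h2
      · exact le_refl _
      · exact absurd (h h1) h2
      · omega
      · exact le_refl _
  have h1 : ∀ z, 1 ≤ (ind W - ind A) z ↔ z ∈ W ∧ z ∉ A := by
    intro z
    rw [Finsupp.tsub_apply, ind_apply, ind_apply]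
    split_ifs with h1 h2 <;> simp_all
  constructor
  · rintro ⟨h2, x, y, h3, h4, h5⟩
    have h6 := (h1 x).1 h4
    have h7 := (h1 y).1 h5
    exact ⟨h0.1 h2, x, h6.1, y, h7.1, h6.2, h7.2, h3⟩
  · rintro ⟨h2, x, hx, y, hy, hxA, hyA, h3⟩
    exact ⟨h0.2 h2, x, y, h3, (h1 x).2 ⟨hx, hxA⟩, (h1 y).2 ⟨hy, hyA⟩⟩

/-- the multidegree `(1_W, 2)` -/
noncomputable def b2 (W : Finset (Fin n)) : Fin (n + 1) →₀ ℕ :=
  ind (up W) + Finsupp.single (Fin.last n) 2

theorem b2_last (W : Finset (Fin n)) : b2 W (Fin.last n) = 2 := by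
  unfold b2
  rw [Finsupp.add_apply, ind_apply, if_neg (last_notMem_up W), Finsupp.single_eq_same]

theorem b2_old (W : Finset (Fin n)) (x : Fin n) : b2 W x.castSucc = if x ∈ W then 1 else 0 := by
  unfold b2
  rw [Finsupp.add_apply, ind_apply, Finsupp.single_apply, if_neg (Fin.castSucc_lt_last x).ne']
  simp [mem_up]

theorem ind_up_old (A : Finset (Fin n)) (x : Fin n) : ind (up A) x.castSucc = if x ∈ A then 1 else 0 := by
  rw [ind_apply]
  simp [mem_up]

theorem ind_iup_old (A : Finset (Fin n)) (x : Fin n) :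
    ind (insert (Fin.last n) (up A)) x.castSucc = if x ∈ A then 1 else 0 := by
  rw [ind_apply]
  have : x.castSucc ≠ Fin.last n := (Fin.castSucc_lt_last x).ne
  simp [mem_up, this]

theorem ind_up_last (A : Finset (Fin n)) : ind (up A) (Fin.last n) = 0 := by
  rw [ind_apply, if_neg (last_notMem_up A)]

theorem ind_iup_last (A : Finset (Fin n)) : ind (insert (Fin.last n) (up A)) (Fin.last n) = 1 := by
  rw [ind_apply, if_pos (Finset.mem_insert_self _ _)]

theorem four_le {m : ℕ} {H : SimpleGraph (Fin m)} {c : Fin m → ℕ} (h : P2 H c) : 4 ≤ ∑ v, c v := by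
  obtain ⟨i, j, i', j', h1, h2, h3⟩ := h
  refine le_trans (le_of_eq ?_) (Finset.sum_le_sum fun v _ => h3 v)
  simp only [Finsupp.add_apply, Finset.sum_add_distrib]
  have : ∀ a : Fin m, ∑ v, (Finsupp.single a 1 : Fin m →₀ ℕ) v = 1 := by
    intro a
    rw [Finset.sum_eq_single a]
    · exact Finsupp.single_eq_same
    · intro b _ hb; exact Finsupp.single_eq_of_ne hb
    · intro h; exact absurd (Finset.mem_univ _) h
  rw [this, this, this, this]
  norm_num

theorem rel (G : SimpleGraph (Fin n)) (W : Finset (Fin n)) :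
    Rel W (EF G W) (fam (P2 (coneGraph G)) (b2 W)) := by
  classical
  have hsum : ∀ A : Finset (Fin n), A ⊆ W →
      ∑ x : Fin n, ((if x ∈ W then 1 else 0) - if x ∈ A then 1 else 0) = W.card - A.card := by
    intro A hA
    have h1 : ∀ x : Fin n, ((if x ∈ W then 1 else 0) - if x ∈ A then 1 else 0) =
        if x ∈ W \ A then 1 else 0 := by
      intro x
      simp only [Finset.mem_sdiff]
      split_ifs with h1 h2 h3 h4 <;> simp_all
    rw [Finset.sum_congr rfl fun x _ => h1 x, Finset.sum_ite_mem, Finset.univ_inter,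
      Finset.sum_const, smul_eq_mul, mul_one, Finset.card_sdiff_of_subset hA]
  refine ⟨fun A hA => (mem_EF.1 hA).1, fun A => ?_, fun A => ?_⟩
  · rw [mem_fam]
    constructor
    · rintro ⟨h1, h2⟩
      have hA : A ⊆ W := by
        intro x hx
        have := h1 x.castSucc
        rw [ind_up_old, b2_old, if_pos hx] at this
        by_contra h
        rw [if_neg h] at this
        omega
      refine ⟨hA, ?_⟩
      have h3 := four_le h2
      simp only [Finsupp.tsub_apply] at h3
      rw [Fin.sum_univ_castSucc] at h3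
      simp only [ind_up_old, b2_old, ind_up_last, b2_last] at h3
      rw [hsum A hA] at h3
      omega
    · rintro ⟨hA, hc⟩
      have h1 : 1 < (W \ A).card := by rw [Finset.card_sdiff_of_subset hA]; omega
      obtain ⟨x, hx, y, hy, hxy⟩ := Finset.one_lt_card.1 h1
      rw [Finset.mem_sdiff] at hx hy
      refine ⟨fun v => ?_, Fin.last n, x.castSucc, Fin.last n, y.castSucc,
        ⟨(Fin.castSucc_lt_last x).ne', Or.inl rfl⟩, ⟨(Fin.castSucc_lt_last y).ne', Or.inl rfl⟩,
        fun v => ?_⟩
      · refine Fin.lastCases ?_ (fun i => ?_) v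
        · rw [ind_up_last]; omega
        · rw [ind_up_old, b2_old]
          split_ifs with h2 h3
          · omega
          · exact absurd (hA h2) h3
          · omega
          · omega
      · refine Fin.lastCases ?_ (fun i => ?_) v
        · rw [Finsupp.tsub_apply, ind_up_last, b2_last]
          simp only [Finsupp.add_apply, Finsupp.single_eq_same]
          rw [Finsupp.single_apply, Finsupp.single_apply, if_neg (Fin.castSucc_lt_last x).ne,
            if_neg (Fin.castSucc_lt_last y).ne]
          omega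
        · rw [Finsupp.tsub_apply, ind_up_old, b2_old]
          simp only [Finsupp.add_apply, Finsupp.single_apply, (Fin.castSucc_lt_last i).ne',
            Fin.castSucc_inj, if_false]
          split_ifs <;> simp_all
  · rw [mem_fam]
    constructor
    · rintro ⟨h1, h2⟩
      have hA : A ⊆ W := by
        intro x hx
        have := h1 x.castSucc
        rw [ind_iup_old, b2_old, if_pos hx] at this
        by_contra h
        rw [if_neg h] at this
        omega
      have h3 := four_le h2
      simp only [Finsupp.tsub_apply] at h3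
      rw [Fin.sum_univ_castSucc] at h3
      simp only [ind_iup_old, b2_old, ind_iup_last, b2_last] at h3
      rw [hsum A hA] at h3
      refine ⟨?_, by omega⟩
      obtain ⟨a, b, a', b', h4, h5, h6⟩ := h2
      have h7 := h6 (Fin.last n)
      rw [Finsupp.tsub_apply, ind_iup_last, b2_last] at h7
      have h8 : ∀ i : Fin n, (∃ w w' w'' : Fin (n + 1), ∀ v, (Finsupp.single i.castSucc 1 +
          Finsupp.single w 1 + (Finsupp.single w' 1 + Finsupp.single w'' 1) :
            Fin (n + 1) →₀ ℕ) v ≤ (b2 W - ind (insert (Fin.last n) (up A))) v) → i ∈ W ∧ i ∉ A := by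
        rintro i ⟨w, w', w'', hw⟩
        have := hw i.castSucc
        rw [Finsupp.tsub_apply, ind_iup_old, b2_old] at this
        simp only [Finsupp.add_apply, Finsupp.single_eq_same] at this
        split_ifs at this with g1 g2 g3
        · omega
        · exact ⟨g1, g2⟩
        · omega
        · omega
      have fin : ∀ i j : Fin n, G.Adj i j → (∃ w' w'' : Fin (n + 1), ∀ v, (Finsupp.single i.castSucc 1 +
          Finsupp.single j.castSucc 1 + (Finsupp.single w' 1 + Finsupp.single w'' 1) :
            Fin (n + 1) →₀ ℕ) v ≤ (b2 W - ind (insert (Fin.last n) (up A))) v) → A ∈ EF G W := by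
        rintro i j hij ⟨w', w'', hw⟩
        obtain ⟨g1, g2⟩ := h8 i ⟨_, _, _, hw⟩
        obtain ⟨g3, g4⟩ := h8 j ⟨i.castSucc, w', w'', fun v => by
          rw [add_comm (Finsupp.single j.castSucc 1 : Fin (n + 1) →₀ ℕ)]; exact hw v⟩
        exact mem_EF.2 ⟨hA, i, g1, j, g3, g2, g4, hij⟩
      rcases h4.2 with h | h | ⟨i, j, hij, rfl, rfl⟩
      · rcases h5.2 with h' | h' | ⟨i, j, hij, rfl, rfl⟩
        · subst h; subst h'
          simp only [Finsupp.add_apply, Finsupp.single_eq_same] at h7
          omega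
        · subst h; subst h'
          simp only [Finsupp.add_apply, Finsupp.single_eq_same] at h7
          omega
        · exact fin i j hij ⟨a, b, fun v => by
            rw [add_comm (Finsupp.single i.castSucc 1 + Finsupp.single j.castSucc 1 :
              Fin (n + 1) →₀ ℕ)]; exact h6 v⟩
      · rcases h5.2 with h' | h' | ⟨i, j, hij, rfl, rfl⟩
        · subst h; subst h'
          simp only [Finsupp.add_apply, Finsupp.single_eq_same] at h7
          omega
        · subst h; subst h'
          simp only [Finsupp.add_apply, Finsupp.single_eq_same] at h7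
          omega
        · exact fin i j hij ⟨a, b, fun v => by
            rw [add_comm (Finsupp.single i.castSucc 1 + Finsupp.single j.castSucc 1 :
              Fin (n + 1) →₀ ℕ)]; exact h6 v⟩
      · exact fin i j hij ⟨a', b', h6⟩
    · rintro ⟨hE, hc⟩
      obtain ⟨hA, x, hx, y, hy, hxA, hyA, hxy⟩ := mem_EF.1 hE
      have h1 : 0 < (((W \ A).erase x).erase y).card := by
        have h2 : (W \ A).card = W.card - A.card := Finset.card_sdiff_of_subset hA
        have h3 := Finset.pred_card_le_card_erase (s := W \ A) (a := x)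
        have h4 := Finset.pred_card_le_card_erase (s := (W \ A).erase x) (a := y)
        omega
      obtain ⟨z, hz⟩ := Finset.card_pos.1 h1
      rw [Finset.mem_erase, Finset.mem_erase, Finset.mem_sdiff] at hz
      obtain ⟨hzy, hzx, hzW, hzA⟩ := hz
      have hne := hxy.ne
      refine ⟨fun v => ?_, x.castSucc, y.castSucc, Fin.last n, z.castSucc,
        ⟨fun h => hne (Fin.castSucc_injective n h), Or.inr (Or.inr ⟨x, y, hxy, rfl, rfl⟩)⟩,
        ⟨(Fin.castSucc_lt_last z).ne', Or.inl rfl⟩,
        fun v => ?_⟩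
      · refine Fin.lastCases ?_ (fun i => ?_) v
        · rw [ind_iup_last, b2_last]; omega
        · rw [ind_iup_old, b2_old]
          split_ifs with h2 h3
          · omega
          · exact absurd (hA h2) h3
          · omega
          · omega
      · refine Fin.lastCases ?_ (fun i => ?_) v
        · rw [Finsupp.tsub_apply, ind_iup_last, b2_last]
          simp only [Finsupp.add_apply, Finsupp.single_eq_same]
          rw [Finsupp.single_apply, Finsupp.single_apply, Finsupp.single_apply,
            if_neg (Fin.castSucc_lt_last x).ne,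
            if_neg (Fin.castSucc_lt_last y).ne, if_neg (Fin.castSucc_lt_last z).ne]
          omega
        · rw [Finsupp.tsub_apply, ind_iup_old, b2_old]
          simp only [Finsupp.add_apply, Finsupp.single_apply, (Fin.castSucc_lt_last i).ne',
            Fin.castSucc_inj, if_false]
          split_ifs <;> simp_all

/-- a nonempty simplex has no homology -/
theorem comb_powerset {W : Finset (Fin n)} (hW : W.Nonempty) (i : ℕ) :
    combBetti K W.powerset i = 0 := by
  obtain ⟨v, hv⟩ := hW
  refine combBetti_eq_zero fun a ha => cone_bd ha v fun T hT _ => ?_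
  have h1 := Finset.mem_powerset.1 (ha.1 T hT).1
  exact Finset.mem_powerset.2 (Finset.insert_subset hv h1)

theorem down_powerset (W : Finset (Fin n)) : Down W.powerset := by
  intro T j h
  exact Finset.mem_powerset.2 ((Finset.subset_insert _ _).trans (Finset.mem_powerset.1 h))

/-- the comparison at a squarefree multidegree -/
theorem rk_EF (G : SimpleGraph (Fin n)) (W : Finset (Fin n))
    (h : ∀ i, combBetti K (fam (P2 (coneGraph G)) (b2 W)) i =
      combBetti ℚ (fam (P2 (coneGraph G)) (b2 W)) i) (t : ℕ) :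
    rk K (EF G W) t = rk ℚ (EF G W) t := by
  by_cases h1 : t + 3 ≤ W.card
  · have hW : W.Nonempty := Finset.card_pos.1 (by omega)
    have h2 := cyc_eq_of_rk (rk_eq_of_comb (fam_down _ (P2_mono _) (b2 W)) h (t + 1))
    have h3 := cyc_eq_of_rk (K := K) (rk_eq_of_comb (down_powerset W)
      (fun i => by rw [comb_powerset hW, comb_powerset hW]) (t + 1))
    have h4 := cyc_split (K := K) (rel G W) t h1
    have h5 := cyc_split (K := ℚ) (rel G W) t h1
    exact rk_eq_of_cyc (by omega)
  · by_cases h2 : t + 2 = W.card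
    · have h3 := top_cycles (K := K) G W h2
      have h4 := top_cycles (K := ℚ) G W h2
      exact rk_eq_of_cyc (by omega)
    · refine rk_eq_of_cnt ?_
      unfold cnt
      rw [Finset.card_eq_zero, Finset.filter_eq_empty_iff]
      intro A hA hc
      have := EF_card hA
      omega

theorem main (G : SimpleGraph (Fin n))
    (h : ∀ i j, degBetti (edgeIdeal K (coneGraph G) ^ 2) i j =
      degBetti (edgeIdeal ℚ (coneGraph G) ^ 2) i j) (i j : ℕ) :
    degBetti (edgeIdeal K G) i j = degBetti (edgeIdeal ℚ G) i j := by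
  classical
  have h1 : ∀ (i : ℕ) (b : Fin (n + 1) →₀ ℕ), combBetti K (fam (P2 (coneGraph G)) b) i =
      combBetti ℚ (fam (P2 (coneGraph G)) b) i := by
    intro i b
    have h2 := (h i (∑ v, b v)).symm
    unfold degBetti at h2
    rw [Finset.sum_congr rfl fun b _ => gradedBetti_eq (mem_sq (K := ℚ) (coneGraph G)) i b,
      Finset.sum_congr rfl fun b _ => gradedBetti_eq (mem_sq (K := K) (coneGraph G)) i b] at h2
    rw [Finset.sum_eq_sum_iff_of_le] at h2
    · exact (h2 b (by simp [Finset.mem_finsuppAntidiag])).symm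
    · intro b _
      exact comb_ge (fam_down _ (P2_mono _) b) i
  unfold degBetti
  refine Finset.sum_congr rfl fun b _ => ?_
  rw [gradedBetti_eq (mem_edge (K := K) G), gradedBetti_eq (mem_edge (K := ℚ) G)]
  by_cases hb : ∃ v, 2 ≤ b v
  · obtain ⟨v, hv⟩ := hb
    rw [comb_not_sqfree G b hv, comb_not_sqfree G b hv]
  · push Not at hb
    have h3 : b = ind b.support := by
      ext v
      rw [ind_apply]
      have := hb v
      split_ifs with h4
      · have := Finsupp.mem_support_iff.1 h4
        omega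
      · exact Finsupp.notMem_support_iff.1 h4
    rw [h3, fam_sqfree]
    have h4 := comb_add (K := K) (EF_down G b.support) i
    have h5 := comb_add (K := ℚ) (EF_down G b.support) i
    have h6 := rk_EF (K := K) G b.support (fun i => h1 i _) i
    have h7 := rk_EF (K := K) G b.support (fun i => h1 i _) (i + 1)
    omega

end Pool.Agent.Q123.KB
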