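import Pool.Agent.Q123.KB.RPEq

set_option autoImplicit false

/-!
The powers of the ideal `(x², y²) + x y J`, where `J` is Reisner's ideal in six further variables.
-/

namespace Pool.Agent.Q123.KB

open Finset MvPolynomial Pool.Agent.H677R3.EdgeReg
open scoped Pointwise

/-- the exponents of the monomials of the ideal generated by the monomials in `A` -/
def Above {n : ℕ} (A : Set (Fin n →₀ ℕ)) (u : Fin n → ℕ) : Prop := ∃ s ∈ A, ∀ v, s v ≤ u v

/-- the exponents of the products of `h` generators -/
def sums {n : ℕ} (A : Set (Fin n →₀ ℕ)) : ℕ → Set (Fin n →₀ ℕ)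
  | 0 => {0}
  | h + 1 => sums A h + A

theorem pow_eq {n : ℕ} {K : Type*} [Field K] (A : Set (Fin n →₀ ℕ)) (h : ℕ) :
    monIdeal K A ^ h = monIdeal K (sums A h) := by
  induction h with
  | zero =>
    rw [pow_zero, Ideal.one_eq_top]
    symm
    rw [Ideal.eq_top_iff_one]
    refine Ideal.subset_span ⟨0, rfl, ?_⟩
    rfl
  | succ h ih => rw [pow_succ, ih, monIdeal_mul]; rfl

/-- a cone has no homology -/
theorem cone_bd {n : ℕ} {K : Type*} [Field K] {F : Finset (Finset (Fin n))} {i : ℕ}
    {a : Finset (Fin n) → K} (ha : a ∈ ccycles K F i) (v : Fin n)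
    (hc : ∀ T, a T ≠ 0 → v ∉ T → insert v T ∈ F) : a ∈ cboundaries K F i := by
  refine ⟨hv v a, ?_, ?_⟩
  · intro T hT
    unfold hv at hT
    split_ifs at hT with h1
    · have h2 : a (T.erase v) ≠ 0 := fun h => hT (by rw [h, mul_zero])
      have h3 := hc _ h2 (Finset.notMem_erase v T)
      rw [Finset.insert_erase h1] at h3
      refine ⟨h3, ?_⟩
      have h4 := (ha.1 _ h2).2
      rw [Finset.card_erase_of_mem h1] at h4
      have : 0 < T.card := Finset.card_pos.2 ⟨v, h1⟩
      omega
    · exact absurd rfl hT
  · have h0 : cd a = 0 := ha.2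
    ext1 T
    change cd (hv v a) T = a T
    have := homotopy v a T
    rw [h0] at this
    unfold hv at this ⊢
    simpa using this

namespace RP

/-- the exponent vector of a monomial of Reisner's ideal -/
def ZZ (u : Fin 8 → ℕ) : Prop := ∃ t ∈ tri, ∀ v ∈ t, 1 ≤ u v

/-- the exponents of the monomials of the power `h ≥ 1` -/
def PP (h : ℕ) (u : Fin 8 → ℕ) : Prop :=
  2 * h < u 0 + u 1 ∨ (u 0 + u 1 = 2 * h ∧ (Even (u 0) ∨ ZZ u))

/-- the exponents of the generators: `x²`, `y²` and `x y m`, `m` a generator of Reisner's ideal -/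
noncomputable def gens : Finset (Fin 8 →₀ ℕ) :=
  {Finsupp.single 0 2, Finsupp.single 1 2} ∪ (tri.toFinset.image fun t => ind (insert 0 (insert 1 t)))

theorem tri_ge : ∀ t ∈ tri, ∀ v ∈ t, v ≠ 0 ∧ v ≠ 1 := by decide +kernel

theorem mem_gens (s : Fin 8 →₀ ℕ) : s ∈ gens ↔ s = Finsupp.single 0 2 ∨ s = Finsupp.single 1 2 ∨
    ∃ t ∈ tri, s = ind (insert 0 (insert 1 t)) := by
  unfold gens
  simp only [Finset.mem_union, Finset.mem_insert, Finset.mem_singleton, Finset.mem_image,
    List.mem_toFinset, or_assoc]
  constructor
  · rintro (h | h | ⟨t, ht, h⟩)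
    · exact Or.inl h
    · exact Or.inr (Or.inl h)
    · exact Or.inr (Or.inr ⟨t, ht, h.symm⟩)
  · rintro (h | h | ⟨t, ht, h⟩)
    · exact Or.inl h
    · exact Or.inr (Or.inl h)
    · exact Or.inr (Or.inr ⟨t, ht, h.symm⟩)

theorem above_one (u : Fin 8 → ℕ) : Above (gens : Set (Fin 8 →₀ ℕ)) u ↔ PP 1 u := by
  constructor
  · rintro ⟨s, hs, h⟩
    rcases (mem_gens s).1 (by exact_mod_cast hs) with rfl | rfl | ⟨t, ht, rfl⟩
    · have h0 := h 0
      rw [Finsupp.single_eq_same] at h0
      by_cases h1 : 2 * 1 < u 0 + u 1
      · exact Or.inl h1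
      · exact Or.inr ⟨by omega, Or.inl (by rw [show u 0 = 2 by omega]; decide)⟩
    · have h0 := h 1
      rw [Finsupp.single_eq_same] at h0
      by_cases h1 : 2 * 1 < u 0 + u 1
      · exact Or.inl h1
      · exact Or.inr ⟨by omega, Or.inl (by rw [show u 0 = 0 by omega]; decide)⟩
    · have h0 := h 0
      have h1 := h 1
      rw [ind_apply, if_pos (by simp)] at h0 h1
      by_cases h2 : 2 * 1 < u 0 + u 1
      · exact Or.inl h2
      · refine Or.inr ⟨by omega, Or.inr ⟨t, ht, fun v hv => ?_⟩⟩
        have h3 := h v
        rwa [ind_apply, if_pos (by simp [hv])] at h3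
  · intro h
    by_cases h0 : 2 ≤ u 0
    · refine ⟨Finsupp.single 0 2, by exact_mod_cast (mem_gens _).2 (Or.inl rfl), fun v => ?_⟩
      rw [Finsupp.single_apply]
      split_ifs with hv
      · rw [← hv]; exact h0
      · exact Nat.zero_le _
    by_cases h1 : 2 ≤ u 1
    · refine ⟨Finsupp.single 1 2, by exact_mod_cast (mem_gens _).2 (Or.inr (Or.inl rfl)), fun v => ?_⟩
      rw [Finsupp.single_apply]
      split_ifs with hv
      · rw [← hv]; exact h1
      · exact Nat.zero_le _
    have h2 : u 0 + u 1 = 2 * 1 ∧ (Even (u 0) ∨ ZZ u) := by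
      rcases h with h | h
      · omega
      · exact h
    obtain ⟨h3, h4⟩ := h2
    have h5 : u 0 = 1 := by omega
    have h6 : u 1 = 1 := by omega
    rcases h4 with h4 | ⟨t, ht, h4⟩
    · rw [h5] at h4; exact absurd h4 (by decide)
    · refine ⟨ind (insert 0 (insert 1 t)), by exact_mod_cast (mem_gens _).2 (Or.inr (Or.inr ⟨t, ht, rfl⟩)),
        fun v => ?_⟩
      rw [ind_apply]
      split_ifs with hv
      · rcases Finset.mem_insert.1 hv with rfl | hv
        · omega
        · rcases Finset.mem_insert.1 hv with rfl | hv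
          · omega
          · exact h4 v hv
      · exact Nat.zero_le _

theorem ZZ.mono {u w : Fin 8 → ℕ} (h : ZZ u) (huw : ∀ v, v ≠ 0 → v ≠ 1 → u v ≤ w v) : ZZ w := by
  obtain ⟨t, ht, h⟩ := h
  exact ⟨t, ht, fun v hv => (h v hv).trans (huw v (tri_ge t ht v hv).1 (tri_ge t ht v hv).2)⟩

theorem above_sums (h : ℕ) (hh : 1 ≤ h) (u : Fin 8 → ℕ) :
    Above (sums (gens : Set (Fin 8 →₀ ℕ)) h) u ↔ PP h u := by
  induction h, hh using Nat.le_induction generalizing u with
  | base =>
    rw [← above_one]
    have : sums (gens : Set (Fin 8 →₀ ℕ)) 1 = gens := by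
      change ({0} : Set (Fin 8 →₀ ℕ)) + _ = _
      rw [Set.singleton_add]
      simp
    rw [this]
  | succ h hh ih =>
    constructor
    · rintro ⟨s', hs', hu⟩
      obtain ⟨s, hs, a, ha, rfl⟩ := Set.mem_add.1 hs'
      have hw : PP h (fun v => u v - a v) := (ih _).1 ⟨s, hs, fun v => by
        have := hu v
        rw [Finsupp.add_apply] at this
        change s v ≤ u v - a v
        omega⟩
      have hle : ∀ v, a v ≤ u v := fun v => by
        have := hu v
        rw [Finsupp.add_apply] at this
        omega
      rcases (mem_gens a).1 (by exact_mod_cast ha) with rfl | rfl | ⟨t, ht, rfl⟩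
      · have h0 := hle 0
        unfold PP at hw
        beta_reduce at hw
        rw [Finsupp.single_eq_same] at h0 hw
        have e1 : (Finsupp.single (0 : Fin 8) 2 : Fin 8 →₀ ℕ) 1 = 0 := by
          rw [Finsupp.single_apply, if_neg (by decide)]
        rw [e1] at hw
        rcases hw with hw | ⟨hw, hw2⟩
        · exact Or.inl (by omega)
        · refine Or.inr ⟨by omega, ?_⟩
          rcases hw2 with hw2 | hw2
          · left
            rw [show u 0 = (u 0 - 2) + 2 by omega]
            exact hw2.add (by decide)
          · right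
            exact hw2.mono fun v _ _ => Nat.sub_le _ _
      · have h0 := hle 1
        unfold PP at hw
        beta_reduce at hw
        rw [Finsupp.single_eq_same] at h0 hw
        have e1 : (Finsupp.single (1 : Fin 8) 2 : Fin 8 →₀ ℕ) 0 = 0 := by
          rw [Finsupp.single_apply, if_neg (by decide)]
        rw [e1] at hw
        rcases hw with hw | ⟨hw, hw2⟩
        · exact Or.inl (by omega)
        · refine Or.inr ⟨by omega, ?_⟩
          rcases hw2 with hw2 | hw2
          · left
            simpa using hw2
          · right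
            exact hw2.mono fun v _ _ => Nat.sub_le _ _
      · have h0 := hle 0
        have h1 := hle 1
        unfold PP at hw
        beta_reduce at hw
        rw [ind_apply, if_pos (by simp)] at h0 h1
        rw [ind_apply, ind_apply, if_pos (by simp), if_pos (by simp)] at hw
        by_cases h2 : 2 * (h + 1) < u 0 + u 1
        · exact Or.inl h2
        · refine Or.inr ⟨by omega, Or.inr ⟨t, ht, fun v hv => ?_⟩⟩
          have h3 := hle v
          rwa [ind_apply, if_pos (by simp [hv])] at h3
    · intro hu
      have hpos : 2 * (h + 1) ≤ u 0 + u 1 := by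
        rcases hu with hu | hu <;> omega
      by_cases h0 : 2 ≤ u 0
      · have hw : PP h (Function.update u 0 (u 0 - 2)) := by
          unfold PP
          rw [Function.update_self, Function.update_of_ne (by decide)]
          rcases hu with hu | ⟨hu, hu2⟩
          · exact Or.inl (by omega)
          · refine Or.inr ⟨by omega, ?_⟩
            rcases hu2 with hu2 | hu2
            · left
              rw [Nat.even_sub h0]
              exact ⟨fun _ => by decide, fun _ => hu2⟩
            · right
              exact hu2.mono fun v hv _ => by rw [Function.update_of_ne hv]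
        obtain ⟨s, hs, hle⟩ := (ih _).2 hw
        refine ⟨s + Finsupp.single 0 2, Set.add_mem_add hs
          (by exact_mod_cast (mem_gens _).2 (Or.inl rfl)), fun v => ?_⟩
        have := hle v
        rw [Finsupp.add_apply]
        by_cases hv : v = 0
        · subst hv
          rw [Function.update_self] at this
          rw [Finsupp.single_eq_same]
          omega
        · rw [Function.update_of_ne hv] at this
          rw [Finsupp.single_apply, if_neg (Ne.symm hv)]
          omega
      · have h1 : 2 ≤ u 1 := by omega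
        have hw : PP h (Function.update u 1 (u 1 - 2)) := by
          unfold PP
          rw [Function.update_self, Function.update_of_ne (by decide)]
          rcases hu with hu | ⟨hu, hu2⟩
          · exact Or.inl (by omega)
          · refine Or.inr ⟨by omega, ?_⟩
            rcases hu2 with hu2 | hu2
            · exact Or.inl hu2
            · right
              exact hu2.mono fun v _ hv => by rw [Function.update_of_ne hv]
        obtain ⟨s, hs, hle⟩ := (ih _).2 hw
        refine ⟨s + Finsupp.single 1 2, Set.add_mem_add hs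
          (by exact_mod_cast (mem_gens _).2 (Or.inr (Or.inl rfl))), fun v => ?_⟩
        have := hle v
        rw [Finsupp.add_apply]
        by_cases hv : v = 1
        · subst hv
          rw [Function.update_self] at this
          rw [Finsupp.single_eq_same]
          omega
        · rw [Function.update_of_ne hv] at this
          rw [Finsupp.single_apply, if_neg (Ne.symm hv)]
          omega

theorem mem_pow {K : Type*} [Field K] {h : ℕ} (hh : 1 ≤ h) (p : MvPolynomial (Fin 8) K) :
    p ∈ monIdeal K (gens : Set (Fin 8 →₀ ℕ)) ^ h ↔ ∀ c ∈ p.support, PP h ⇑c := by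
  rw [pow_eq, mem_monIdeal]
  refine forall₂_congr fun c _ => ?_
  rw [← above_sums h hh]
  rfl

end RP

end Pool.Agent.Q123.KB
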