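import Pool.Agent.Q123.KB.Kod

set_option autoImplicit false

/-!
The fifth Betti numbers of the powers of `(x², y²) + x y J`.
-/

namespace Pool.Agent.Q123.KB.RP

open Finset MvPolynomial Pool.Agent.H677R3.EdgeReg

variable {K : Type*} [Field K]

theorem dis_card : ∀ T : Finset (Fin 8), T.card = 5 → ∀ t ∈ tri, Disjoint t T → T ∈ TT := by
  decide +kernel

theorem TT_mem : ∀ T ∈ TT, 0 ∈ T ∧ 1 ∈ T := by decide +kernel

theorem dis_card6 : ∀ T : Finset (Fin 8), T.card = 6 → 0 ∈ T → 1 ∈ T → ∀ t ∈ tri, ¬ Disjoint t T := by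
  decide +kernel

/-- the sets of `TT` together with the generators cover everything -/
theorem cover : ∀ T ∈ TT, ∀ t ∈ tri, Disjoint t T → ∀ v : Fin 8, v ∈ t ∨ v ∈ T := by
  decide +kernel

theorem ge_of_card5 : ∀ T : Finset (Fin 8), T.card = 5 → ¬ (0 ∈ T ∧ 1 ∈ T) →
    ∃ v ∈ T, v ≠ 0 ∧ v ≠ 1 := by
  decide +kernel

/-- the multidegrees in which there is homology -/
def Special (h : ℕ) (b : Fin 8 →₀ ℕ) : Prop :=
  b 0 + b 1 = 2 * h + 2 ∧ Even (b 0) ∧ 1 ≤ b 0 ∧ 1 ≤ b 1 ∧ ∀ v, v ≠ 0 → v ≠ 1 → b v = 1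

theorem mem_F {h : ℕ} {b : Fin 8 →₀ ℕ} {T : Finset (Fin 8)} :
    T ∈ fam (PP h) b ↔ (∀ v ∈ T, 1 ≤ b v) ∧
      (2 * h < (b 0 - ind T 0) + (b 1 - ind T 1) ∨
        ((b 0 - ind T 0) + (b 1 - ind T 1) = 2 * h ∧
          (Even (b 0 - ind T 0) ∨ ZZ fun v => b v - ind T v))) := by
  rw [mem_fam]
  unfold KK PP
  have : ind T ≤ b ↔ ∀ v ∈ T, 1 ≤ b v := by
    constructor
    · intro h1 v hv
      have := h1 v
      rwa [ind_apply, if_pos hv] at this
    · intro h1 v
      rw [ind_apply]
      split_ifs with hv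
      · exact h1 v hv
      · exact Nat.zero_le _
  rw [this]
  rfl

theorem ind_le_one (T : Finset (Fin 8)) (v : Fin 8) : ind T v ≤ 1 := by
  rw [ind_apply]; split_ifs <;> omega

theorem ind_of_mem {T : Finset (Fin 8)} {v : Fin 8} (h : v ∈ T) : ind T v = 1 := by
  rw [ind_apply, if_pos h]

theorem ind_of_notMem {T : Finset (Fin 8)} {v : Fin 8} (h : v ∉ T) : ind T v = 0 := by
  rw [ind_apply, if_neg h]

/-- if the exponents of the last variables are at most one then `ZZ` forces a set with five elements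
to be in `TT`, and all exponents are positive -/
theorem ZZ_TT {b : Fin 8 →₀ ℕ} (hb : ∀ v, v ≠ 0 → v ≠ 1 → b v ≤ 1) {T : Finset (Fin 8)}
    (hT : T.card = 5) (hTb : ∀ v ∈ T, 1 ≤ b v) (hZ : ZZ fun v => b v - ind T v) :
    T ∈ TT ∧ ∀ v, 1 ≤ b v := by
  obtain ⟨t, ht, h⟩ := hZ
  have hdis : Disjoint t T := by
    rw [Finset.disjoint_left]
    intro v hv hvT
    have h1 : 1 ≤ b v - ind T v := h v hv
    have h2 := hb v (tri_ge t ht v hv).1 (tri_ge t ht v hv).2
    rw [ind_of_mem hvT] at h1
    omega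
  have hTT := dis_card T hT t ht hdis
  refine ⟨hTT, fun v => ?_⟩
  rcases cover T hTT t ht hdis v with hv | hv
  · have : 1 ≤ b v - ind T v := h v hv
    omega
  · exact hTb v hv

theorem key {h : ℕ} {b : Fin 8 →₀ ℕ} {a : Finset (Fin 8) → K}
    (ha : a ∈ ccycles K (fam (PP h) b) 5) (h0 : Special h b → a {0, 1, 5, 6, 7} = 0) :
    a ∈ cboundaries K (fam (PP h) b) 5 := by
  by_cases hz2 : ∃ z : Fin 8, z ≠ 0 ∧ z ≠ 1 ∧ 2 ≤ b z
  · obtain ⟨z, hz0, hz1, hz⟩ := hz2
    refine cone_bd ha z fun T hT hzT => ?_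
    obtain ⟨h1, h2⟩ := mem_F.1 (ha.1 T hT).1
    refine mem_F.2 ⟨fun v hv => ?_, ?_⟩
    · rcases Finset.mem_insert.1 hv with rfl | hv
      · omega
      · exact h1 v hv
    · have e0 : ind (insert z T) 0 = ind T 0 := by
        simp only [ind_apply, Finset.mem_insert, (Ne.symm hz0), false_or]
      have e1 : ind (insert z T) 1 = ind T 1 := by
        simp only [ind_apply, Finset.mem_insert, (Ne.symm hz1), false_or]
      rw [e0, e1]
      refine h2.imp id fun h3 => ⟨h3.1, h3.2.imp id ?_⟩
      rintro ⟨t, ht, h4⟩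
      refine ⟨t, ht, fun v hv => ?_⟩
      have h5 : 1 ≤ b v - ind T v := h4 v hv
      change 1 ≤ b v - ind (insert z T) v
      by_cases hvz : v = z
      · subst hvz
        have := ind_le_one (insert v T) v
        omega
      · have : ind (insert z T) v = ind T v := by
          simp only [ind_apply, Finset.mem_insert, hvz, false_or]
        rw [this]
        exact h5
  push Not at hz2
  have hb : ∀ v, v ≠ 0 → v ≠ 1 → b v ≤ 1 := fun v h1 h2 => by
    have := hz2 v h1 h2
    omega
  -- the total degree in the first two variables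
  have hmem : ∀ T, a T ≠ 0 → (∀ v ∈ T, 1 ≤ b v) ∧
      (2 * h < (b 0 - ind T 0) + (b 1 - ind T 1) ∨
        ((b 0 - ind T 0) + (b 1 - ind T 1) = 2 * h ∧
          (Even (b 0 - ind T 0) ∨ ZZ fun v => b v - ind T v))) := fun T hT => mem_F.1 (ha.1 T hT).1
  have hcard : ∀ T, a T ≠ 0 → T.card = 5 := fun T hT => (ha.1 T hT).2
  have hins : ∀ (z : Fin 8) (T : Finset (Fin 8)), a T ≠ 0 → z ∉ T → 1 ≤ b z →
      (2 * h < (b 0 - ind (insert z T) 0) + (b 1 - ind (insert z T) 1) ∨
        ((b 0 - ind (insert z T) 0) + (b 1 - ind (insert z T) 1) = 2 * h ∧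
          (Even (b 0 - ind (insert z T) 0)))) → insert z T ∈ fam (PP h) b := by
    intro z T hT hzT hbz h1
    refine mem_F.2 ⟨fun v hv => ?_, ?_⟩
    · rcases Finset.mem_insert.1 hv with rfl | hv
      · exact hbz
      · exact (hmem T hT).1 v hv
    · exact h1.imp id fun h2 => ⟨h2.1, Or.inl h2.2⟩
  rcases lt_or_ge (b 0 + b 1) (2 * h) with hs | hs
  · -- nothing
    have : a = 0 := by
      ext1 T
      by_contra hT
      have := (hmem T hT).2
      omega
    rw [this]
    exact Submodule.zero_mem _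
  rcases lt_or_ge (2 * h + 2) (b 0 + b 1) with hs3 | hs3
  · -- everything
    by_cases hb0 : 1 ≤ b 0
    · refine cone_bd ha 0 fun T hT h0T => hins 0 T hT h0T hb0 (Or.inl ?_)
      have h1 := ind_le_one (insert 0 T) 0
      have h2 := ind_le_one (insert 0 T) 1
      omega
    · refine cone_bd ha 1 fun T hT h0T => hins 1 T hT h0T (by omega) (Or.inl ?_)
      have h1 := ind_le_one (insert 1 T) 0
      have h2 := ind_le_one (insert 1 T) 1
      omega
  have hex : (a = 0) ∨ ∃ T, a T ≠ 0 := by
    by_cases h1 : a = 0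
    · exact Or.inl h1
    · right
      by_contra h2
      push Not at h2
      exact h1 (funext h2)
  rcases hex with hex | ⟨T1, hT1⟩
  · rw [hex]
    exact Submodule.zero_mem _
  rcases (by omega : b 0 + b 1 = 2 * h ∨ b 0 + b 1 = 2 * h + 1 ∨ b 0 + b 1 = 2 * h + 2) with
    hs | hs | hs
  · -- sum 2 h
    have hno : ∀ T, a T ≠ 0 → 0 ∉ T ∧ 1 ∉ T ∧ Even (b 0) := by
      intro T hT
      obtain ⟨h1, h2⟩ := hmem T hT
      have n0 : 0 ∉ T := fun hh => by
        have h3 := h1 0 hh
        rw [ind_of_mem hh] at h2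
        omega
      have n1 : 1 ∉ T := fun hh => by
        have h3 := h1 1 hh
        rw [ind_of_mem hh] at h2
        omega
      refine ⟨n0, n1, ?_⟩
      rw [ind_of_notMem n0, ind_of_notMem n1] at h2
      rcases h2 with h2 | ⟨_, h2 | h2⟩
      · omega
      · simpa using h2
      · exact absurd (TT_mem T (ZZ_TT hb (hcard T hT) h1 h2).1).1 n0
    obtain ⟨z, hz, hz0, hz1⟩ := ge_of_card5 T1 (hcard T1 hT1) (fun hh => (hno T1 hT1).1 hh.1)
    refine cone_bd ha z fun T hT hzT => hins z T hT hzT ((hmem T1 hT1).1 z hz) (Or.inr ?_)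
    have e0 : ind (insert z T) 0 = 0 := ind_of_notMem (by
      simp only [Finset.mem_insert, (Ne.symm hz0), false_or]; exact (hno T hT).1)
    have e1 : ind (insert z T) 1 = 0 := ind_of_notMem (by
      simp only [Finset.mem_insert, (Ne.symm hz1), false_or]; exact (hno T hT).2.1)
    rw [e0, e1]
    exact ⟨by omega, by simpa using (hno T hT).2.2⟩
  · -- sum 2 h + 1
    have hno : ∀ T, a T ≠ 0 → ¬ (0 ∈ T ∧ 1 ∈ T) ∧ (0 ∈ T → ¬ Even (b 0)) ∧ (1 ∈ T → Even (b 0)) := by
      intro T hT
      obtain ⟨h1, h2⟩ := hmem T hT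
      have n01 : ¬ (0 ∈ T ∧ 1 ∈ T) := fun hh => by
        have h3 := h1 0 hh.1
        have h4 := h1 1 hh.2
        rw [ind_of_mem hh.1, ind_of_mem hh.2] at h2
        omega
      refine ⟨n01, fun hh => ?_, fun hh => ?_⟩
      · have h3 := h1 0 hh
        have n1 : 1 ∉ T := fun h => n01 ⟨hh, h⟩
        rw [ind_of_mem hh, ind_of_notMem n1] at h2
        rcases h2 with h2 | ⟨_, h2 | h2⟩
        · omega
        · intro h4
          rw [Nat.even_sub h3] at h2
          exact absurd (h2.1 h4) (by decide)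
        · exact absurd (TT_mem T (ZZ_TT hb (hcard T hT) h1 h2).1) n01
      · have h3 := h1 1 hh
        have n0 : 0 ∉ T := fun h => n01 ⟨h, hh⟩
        rw [ind_of_mem hh, ind_of_notMem n0] at h2
        rcases h2 with h2 | ⟨_, h2 | h2⟩
        · omega
        · simpa using h2
        · exact absurd (TT_mem T (ZZ_TT hb (hcard T hT) h1 h2).1) n01
    by_cases hev : Even (b 0)
    · have hb1 : 1 ≤ b 1 := by
        by_contra hh
        have : b 0 = 2 * h + 1 := by omega
        rw [this] at hev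
        exact absurd hev (by simp)
      refine cone_bd ha 1 fun T hT h1T => hins 1 T hT h1T hb1 (Or.inr ?_)
      have n0 : 0 ∉ T := fun h => (hno T hT).2.1 h hev
      have e0 : ind (insert 1 T) 0 = 0 := ind_of_notMem (by
        simp only [Finset.mem_insert]
        rintro (h | h)
        · exact absurd h (by decide)
        · exact n0 h)
      have e1 : ind (insert 1 T) 1 = 1 := ind_of_mem (Finset.mem_insert_self _ _)
      rw [e0, e1]
      exact ⟨by omega, by simpa using hev⟩
    · have hb0 : 1 ≤ b 0 := by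
        by_contra hh
        exact hev (by rw [show b 0 = 0 by omega]; decide)
      refine cone_bd ha 0 fun T hT h0T => hins 0 T hT h0T hb0 (Or.inr ?_)
      have n1 : 1 ∉ T := fun h => hev ((hno T hT).2.2 h)
      have e1 : ind (insert 0 T) 1 = 0 := ind_of_notMem (by
        simp only [Finset.mem_insert]
        rintro (h | h)
        · exact absurd h (by decide)
        · exact n1 h)
      have e0 : ind (insert 0 T) 0 = 1 := ind_of_mem (Finset.mem_insert_self _ _)
      rw [e0, e1]
      refine ⟨by omega, ?_⟩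
      rw [Nat.even_sub hb0]
      exact ⟨fun h => absurd h hev, fun h => absurd h (by decide)⟩
  · -- sum 2 h + 2
    by_cases hb0 : b 0 = 0
    · refine cone_bd ha 1 fun T hT h1T => hins 1 T hT h1T (by omega) (Or.inl ?_)
      have h1 := ind_le_one (insert 1 T) 0
      have h2 := ind_le_one (insert 1 T) 1
      omega
    by_cases hb1 : b 1 = 0
    · refine cone_bd ha 0 fun T hT h1T => hins 0 T hT h1T (by omega) (Or.inl ?_)
      have h1 := ind_le_one (insert 0 T) 0
      have h2 := ind_le_one (insert 0 T) 1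
      omega
    by_cases hev : Even (b 0)
    · -- the main case
      have hp : ∀ T, a T ≠ 0 → ¬ (0 ∈ T ∧ 1 ∈ T) := by
        have hTT : ∀ T, a T ≠ 0 → 0 ∈ T → 1 ∈ T → T ∈ TT ∧ ∀ v, 1 ≤ b v := by
          intro T hT m0 m1
          obtain ⟨h1, h2⟩ := hmem T hT
          have h3 := h1 0 m0
          have h4 := h1 1 m1
          rw [ind_of_mem m0, ind_of_mem m1] at h2
          rcases h2 with h2 | ⟨_, h2 | h2⟩
          · omega
          · rw [Nat.even_sub h3] at h2
            exact absurd (h2.1 hev) (by decide)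
          · exact ZZ_TT hb (hcard T hT) h1 h2
        intro T hT hm
        obtain ⟨h1, h2⟩ := hTT T hT hm.1 hm.2
        have hsp : Special h b := ⟨hs, hev, h2 0, h2 1, fun v hv0 hv1 => by
          have := h2 v
          have := hb v hv0 hv1
          omega⟩
        refine hT (all_zero (fun T => congrFun ha.2 T) (fun T' m0 m1 _ hT' => ?_) (h0 hsp) T h1)
        by_contra hne
        exact hT' (hTT T' hne m0 m1).1
      obtain ⟨z, hz, hz0, hz1⟩ := ge_of_card5 T1 (hcard T1 hT1) (hp T1 hT1)
      refine cone_bd ha z fun T hT hzT => hins z T hT hzT ((hmem T1 hT1).1 z hz) (Or.inl ?_)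
      have e0 : ind (insert z T) 0 = ind T 0 := by
        simp only [ind_apply, Finset.mem_insert, (Ne.symm hz0), false_or]
      have e1 : ind (insert z T) 1 = ind T 1 := by
        simp only [ind_apply, Finset.mem_insert, (Ne.symm hz1), false_or]
      rw [e0, e1]
      have h1 := ind_le_one T 0
      have h2 := ind_le_one T 1
      have h3 : ind T 0 = 0 ∨ ind T 1 = 0 := by
        by_cases m0 : 0 ∈ T
        · right
          exact ind_of_notMem fun m1 => hp T hT ⟨m0, m1⟩
        · left
          exact ind_of_notMem m0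
      omega
    · refine cone_bd ha 0 fun T hT h1T => hins 0 T hT h1T (by omega) ?_
      have e0 : ind (insert 0 T) 0 = 1 := ind_of_mem (Finset.mem_insert_self _ _)
      have h2 := ind_le_one (insert 0 T) 1
      rw [e0]
      by_cases h3 : ind (insert 0 T) 1 = 0
      · left; omega
      · right
        refine ⟨by omega, ?_⟩
        rw [Nat.even_sub (by omega)]
        exact ⟨fun h => absurd h hev, fun h => absurd h (by decide)⟩

end Pool.Agent.Q123.KB.RP
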