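import Pool.Agent.Q123.KB.Kod2

set_option autoImplicit false

/-!
The fifth Betti numbers of the powers of `(x², y²) + x y J`: zero over `ℚ`, and `h` over the field
with two elements.
-/

namespace Pool.Agent.Q123.KB.RP

open Finset MvPolynomial Pool.Agent.H677R3.EdgeReg

variable {K : Type*} [Field K]

theorem hz_special {h : ℕ} {b : Fin 8 →₀ ℕ} {a : Finset (Fin 8) → K} (hsp : Special h b)
    (ha : a ∈ cchains K (fam (PP h) b) 5) :
    ∀ T, 0 ∈ T → 1 ∈ T → T.card = 5 → T ∉ TT → a T = 0 := by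
  intro T m0 m1 _ hT
  by_contra hne
  obtain ⟨h1, h2⟩ := mem_F.1 (ha T hne).1
  obtain ⟨hs, hev, hb0, hb1, hb⟩ := hsp
  rw [ind_of_mem m0, ind_of_mem m1] at h2
  rcases h2 with h2 | ⟨_, h2 | h2⟩
  · omega
  · rw [Nat.even_sub hb0] at h2
    exact absurd (h2.1 hev) (by decide)
  · exact hT (ZZ_TT (fun v h3 h4 => (hb v h3 h4).le) (ha T hne).2 h1 h2).1

theorem comb_zero (h2 : (2 : K) ≠ 0) (h : ℕ) (b : Fin 8 →₀ ℕ) :
    combBetti K (fam (PP h) b) 5 = 0 := by
  refine combBetti_eq_zero fun a ha => key ha fun hsp => ?_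
  have := two_mul (fun T => congrFun ha.2 T) (hz_special hsp ha.1)
  exact (mul_eq_zero.1 this).resolve_left h2

theorem comb_not_special {h : ℕ} {b : Fin 8 →₀ ℕ} (hb : ¬ Special h b) :
    combBetti K (fam (PP h) b) 5 = 0 :=
  combBetti_eq_zero fun _ ha => key ha fun hsp => absurd hsp hb

theorem comb_le_one (h : ℕ) (b : Fin 8 →₀ ℕ) : combBetti K (fam (PP h) b) 5 ≤ 1 := by
  set Z := ccycles K (fam (PP h) b) 5 with hZ
  set B := (cboundaries K (fam (PP h) b) 5).submoduleOf Z with hB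
  let φ : ↥Z →ₗ[K] K :=
    (LinearMap.proj ({0, 1, 5, 6, 7} : Finset (Fin 8)) : (Finset (Fin 8) → K) →ₗ[K] K).comp
      Z.subtype
  have h1 : LinearMap.ker φ ≤ B := by
    rintro ⟨a, ha⟩ h0
    exact key ha fun _ => h0
  have h2 := Submodule.finrank_quotient_add_finrank B
  have h3 := LinearMap.finrank_range_add_finrank_ker φ
  have h4 := Submodule.finrank_mono h1
  have h5 : Module.finrank K (LinearMap.range φ) ≤ 1 := by
    refine (Submodule.finrank_le _).trans ?_
    rw [Module.finrank_self]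
  change Module.finrank K (↥Z ⧸ B) ≤ 1
  omega

/-- the support of the cycle over the field with two elements -/
def CL : List (Finset (Fin 8)) :=
  TT ++ [{0, 2, 5, 6, 7}, {0, 2, 4, 6, 7}, {0, 2, 3, 5, 7}, {0, 2, 3, 4, 6}, {0, 2, 3, 4, 5},
    {1, 2, 5, 6, 7}, {1, 2, 4, 6, 7}, {1, 2, 3, 5, 7}, {1, 2, 3, 4, 6}, {1, 2, 3, 4, 5}]

/-- the cycle over the field with two elements -/
def aa (T : Finset (Fin 8)) : ZMod 2 := if T ∈ CL then 1 else 0

theorem sg_two (j : Fin 8) (T : Finset (Fin 8)) : sg (ZMod 2) j T = 1 := by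
  unfold sg
  rw [show (-1 : ZMod 2) = 1 from by decide, one_pow]

theorem even_count : ∀ T : Finset (Fin 8),
    ((Tᶜ).filter fun j => insert j T ∈ CL).card % 2 = 0 := by
  decide +kernel

theorem cd_aa (T : Finset (Fin 8)) : cd aa T = 0 := by
  unfold cd
  have h1 : ∀ j ∈ Tᶜ, sg (ZMod 2) j T * aa (insert j T) = if insert j T ∈ CL then 1 else 0 :=
    fun j _ => by rw [sg_two, one_mul]; rfl
  rw [Finset.sum_congr rfl h1, Finset.sum_boole, ZMod.natCast_eq_zero_iff]
  exact Nat.dvd_of_mod_eq_zero (even_count T)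

theorem CL_card : ∀ T ∈ CL, T.card = 5 := by decide +kernel

theorem CL_good : ∀ T ∈ CL, 0 ∈ T → 1 ∈ T → ∃ t ∈ tri, Disjoint t T := by decide +kernel

theorem one_le_comb {h : ℕ} {b : Fin 8 →₀ ℕ} (hsp : Special h b) :
    1 ≤ combBetti (ZMod 2) (fam (PP h) b) 5 := by
  obtain ⟨hs, hev, hb0, hb1, hb⟩ := hsp
  have hbv : ∀ v, 1 ≤ b v := by
    intro v
    by_cases h0 : v = 0
    · rw [h0]; exact hb0
    by_cases h1 : v = 1
    · rw [h1]; exact hb1
    exact (hb v h0 h1).ge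
  have hne : ∀ T, aa T ≠ 0 → T ∈ CL := by
    intro T hT
    by_contra h1
    exact hT (if_neg h1)
  refine one_le_combBetti (a := aa) ⟨fun T hT => ?_, ?_⟩ ?_
  · have hT := hne T hT
    refine ⟨mem_F.2 ⟨fun v _ => hbv v, ?_⟩, CL_card T hT⟩
    by_cases hm : 0 ∈ T ∧ 1 ∈ T
    · right
      rw [ind_of_mem hm.1, ind_of_mem hm.2]
      refine ⟨by omega, Or.inr ?_⟩
      obtain ⟨t, ht, hd⟩ := CL_good T hT hm.1 hm.2
      refine ⟨t, ht, fun v hv => ?_⟩
      change 1 ≤ b v - ind T v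
      rw [ind_of_notMem (Finset.disjoint_left.1 hd hv)]
      exact hbv v
    · left
      have h1 := ind_le_one T 0
      have h2 := ind_le_one T 1
      have h3 : ind T 0 = 0 ∨ ind T 1 = 0 := by
        by_cases m0 : 0 ∈ T
        · right
          exact ind_of_notMem fun m1 => hm ⟨m0, m1⟩
        · left
          exact ind_of_notMem m0
      omega
  · change cd aa = 0
    funext T
    exact cd_aa T
  · rintro ⟨g, hg, hga⟩
    have h1 := congrFun hga {0, 1, 5, 6, 7}
    change cd g {0, 1, 5, 6, 7} = aa {0, 1, 5, 6, 7} at h1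
    have h2 : aa {0, 1, 5, 6, 7} = 1 := if_pos (by decide +kernel)
    rw [h2] at h1
    have h3 : cd g {0, 1, 5, 6, 7} = 0 := by
      unfold cd
      refine Finset.sum_eq_zero fun j hj => ?_
      have hj' : j ∉ ({0, 1, 5, 6, 7} : Finset (Fin 8)) := by simpa using hj
      have h4 : g (insert j {0, 1, 5, 6, 7}) = 0 := by
        by_contra hne'
        obtain ⟨h5, h6⟩ := hg _ hne'
        have m0 : (0 : Fin 8) ∈ insert j ({0, 1, 5, 6, 7} : Finset (Fin 8)) := by simp
        have m1 : (1 : Fin 8) ∈ insert j ({0, 1, 5, 6, 7} : Finset (Fin 8)) := by simp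
        obtain ⟨h7, h8⟩ := mem_F.1 h5
        rw [ind_of_mem m0, ind_of_mem m1] at h8
        rcases h8 with h8 | ⟨_, h8 | ⟨t, ht, h8⟩⟩
        · omega
        · rw [Nat.even_sub hb0] at h8
          exact absurd (h8.1 hev) (by decide)
        · refine dis_card6 _ h6 m0 m1 t ht (Finset.disjoint_left.2 fun v hv hvT => ?_)
          have h9 : 1 ≤ b v - ind (insert j {0, 1, 5, 6, 7}) v := h8 v hv
          rw [ind_of_mem hvT, hb v (tri_ge t ht v hv).1 (tri_ge t ht v hv).2] at h9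
          omega
      rw [h4, mul_zero]
    rw [h3] at h1
    exact absurd h1 (by decide)

theorem graded_eq {h : ℕ} (hh : 1 ≤ h) (b : Fin 8 →₀ ℕ) :
    gradedBetti (monIdeal K (gens : Set (Fin 8 →₀ ℕ)) ^ h) 5 b = combBetti K (fam (PP h) b) 5 :=
  gradedBetti_eq (mem_pow hh) 5 b

theorem betti_zero (h2 : (2 : K) ≠ 0) {h : ℕ} (hh : 1 ≤ h) :
    betti (monIdeal K (gens : Set (Fin 8 →₀ ℕ)) ^ h) 5 = 0 := by
  unfold betti
  rw [ENat.iSup_eq_zero]
  intro s
  refine Finset.sum_eq_zero fun b _ => ?_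
  rw [graded_eq hh, comb_zero h2]
  rfl

/-- the special multidegrees -/
noncomputable def bb (h k : ℕ) : Fin 8 →₀ ℕ :=
  Finsupp.equivFunOnFinite.symm fun v => if v = 0 then 2 * k else if v = 1 then 2 * h + 2 - 2 * k else 1

theorem special_iff (h : ℕ) (b : Fin 8 →₀ ℕ) :
    Special h b ↔ ∃ k ∈ Finset.Icc 1 h, bb h k = b := by
  have e0 : ∀ k, bb h k 0 = 2 * k := fun k => rfl
  have e1 : ∀ k, bb h k 1 = 2 * h + 2 - 2 * k := fun k => rfl
  have e2 : ∀ k v, v ≠ 0 → v ≠ 1 → bb h k v = 1 := fun k v h0 h1 => by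
    change (if v = 0 then 2 * k else if v = 1 then 2 * h + 2 - 2 * k else 1) = 1
    rw [if_neg h0, if_neg h1]
  constructor
  · rintro ⟨hs, ⟨k, hk⟩, hb0, hb1, hb⟩
    refine ⟨k, Finset.mem_Icc.2 ⟨by omega, by omega⟩, ?_⟩
    ext v
    by_cases h0 : v = 0
    · rw [h0, e0]; omega
    by_cases h1 : v = 1
    · rw [h1, e1]; omega
    rw [e2 k v h0 h1, hb v h0 h1]
  · rintro ⟨k, hk, rfl⟩
    rw [Finset.mem_Icc] at hk
    refine ⟨?_, ?_, ?_, ?_, e2 k⟩
    · rw [e0, e1]; omega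
    · rw [e0]; exact even_two_mul k
    · rw [e0]; omega
    · rw [e1]; omega

theorem bb_inj (h : ℕ) : Function.Injective (bb h) := by
  intro k k' hk
  have h1 : bb h k 0 = bb h k' 0 := by rw [hk]
  change 2 * k = 2 * k' at h1
  omega

theorem betti_two {h : ℕ} (hh : 1 ≤ h) :
    betti (monIdeal (ZMod 2) (gens : Set (Fin 8 →₀ ℕ)) ^ h) 5 = h := by
  classical
  have hval : ∀ b, (gradedBetti (monIdeal (ZMod 2) (gens : Set (Fin 8 →₀ ℕ)) ^ h) 5 b : ℕ∞) =
      if b ∈ (Finset.Icc 1 h).image (bb h) then 1 else 0 := by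
    intro b
    rw [graded_eq hh]
    split_ifs with hb
    · have hsp : Special h b := (special_iff h b).2 (by simpa using hb)
      have h1 := one_le_comb hsp
      have h2 := comb_le_one (K := ZMod 2) h b
      rw [show combBetti (ZMod 2) (fam (PP h) b) 5 = 1 by omega]
      rfl
    · rw [comb_not_special fun hsp => hb (by simpa using (special_iff h b).1 hsp)]
      rfl
  have hcard : ((Finset.Icc 1 h).image (bb h)).card = h := by
    rw [Finset.card_image_of_injective _ (bb_inj h), Nat.card_Icc]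
    omega
  have hsum : ∀ s : Finset (Fin 8 →₀ ℕ),
      ∑ b ∈ s, (gradedBetti (monIdeal (ZMod 2) (gens : Set (Fin 8 →₀ ℕ)) ^ h) 5 b : ℕ∞) =
        ((s.filter fun b => b ∈ (Finset.Icc 1 h).image (bb h)).card : ℕ∞) := by
    intro s
    rw [Finset.sum_congr rfl fun b _ => hval b, Finset.sum_boole]
  unfold betti
  refine le_antisymm (iSup_le fun s => ?_) ?_
  · rw [hsum]
    refine Nat.cast_le.2 ?_
    calc _ ≤ ((Finset.Icc 1 h).image (bb h)).card := by
          refine Finset.card_le_card fun b hb => (Finset.mem_filter.1 hb).2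
      _ = h := hcard
  · refine le_trans ?_ (le_iSup _ ((Finset.Icc 1 h).image (bb h)))
    rw [hsum, Finset.filter_true_of_mem fun b hb => hb, hcard]

end Pool.Agent.Q123.KB.RP
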