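import Pool.Agent.Q123.KB.Defs

set_option autoImplicit false

/-!
The equations for the cycles on the triangulation of the projective plane with six vertices.
-/

namespace Pool.Agent.Q123.KB.RP

open Finset Pool.Agent.H677R3.EdgeReg

/-- the generators of Reisner's ideal, in the variables 2,…,7 of 0,…,7 -/
def tri : List (Finset (Fin 8)) :=
  [{2, 3, 4}, {2, 3, 5}, {2, 4, 6}, {2, 5, 7}, {2, 6, 7}, {3, 4, 7}, {3, 5, 6}, {3, 6, 7}, {4, 5, 6}, {4, 5, 7}]

/-- the sets `{0, 1} ∪ t`, where `t` is the complement of a generator -/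
def TT : List (Finset (Fin 8)) :=
  [{0, 1, 5, 6, 7}, {0, 1, 4, 6, 7}, {0, 1, 3, 5, 7}, {0, 1, 3, 4, 6}, {0, 1, 3, 4, 5}, {0, 1, 2, 5, 6}, {0, 1, 2, 4, 7}, {0, 1, 2, 4, 5}, {0, 1, 2, 3, 7}, {0, 1, 2, 3, 6}]

theorem e0 {K : Type*} [Field K] {a : Finset (Fin 8) → K} (hc : ∀ T, cd a T = 0)
    (hz : ∀ T, 0 ∈ T → 1 ∈ T → T.card = 5 → T ∉ TT → a T = 0) :
    (1) * a {0, 1, 2, 3, 6} + (1) * a {0, 1, 2, 3, 7} = 0 := by
  have h := hc {0, 1, 2, 3}
  unfold cd sg at h
  rw [show ({0, 1, 2, 3} : Finset (Fin 8))ᶜ = {4, 5, 6, 7} from by decide, Finset.sum_insert (by decide),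
    Finset.sum_insert (by decide), Finset.sum_insert (by decide), Finset.sum_singleton,
    show insert (4 : Fin 8) ({0, 1, 2, 3} : Finset (Fin 8)) = {0, 1, 2, 3, 4} from by decide,
    show (({0, 1, 2, 3} : Finset (Fin 8)).filter (· < (4 : Fin 8))).card = 4 from by decide,
    show insert (5 : Fin 8) ({0, 1, 2, 3} : Finset (Fin 8)) = {0, 1, 2, 3, 5} from by decide,
    show (({0, 1, 2, 3} : Finset (Fin 8)).filter (· < (5 : Fin 8))).card = 4 from by decide,
    show insert (6 : Fin 8) ({0, 1, 2, 3} : Finset (Fin 8)) = {0, 1, 2, 3, 6} from by decide,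
    show (({0, 1, 2, 3} : Finset (Fin 8)).filter (· < (6 : Fin 8))).card = 4 from by decide,
    show insert (7 : Fin 8) ({0, 1, 2, 3} : Finset (Fin 8)) = {0, 1, 2, 3, 7} from by decide,
    show (({0, 1, 2, 3} : Finset (Fin 8)).filter (· < (7 : Fin 8))).card = 4 from by decide] at h
  rw [hz {0, 1, 2, 3, 4} (by decide) (by decide) (by decide) (by decide)] at h
  rw [hz {0, 1, 2, 3, 5} (by decide) (by decide) (by decide) (by decide)] at h
  rw [← h]
  norm_num

theorem e1 {K : Type*} [Field K] {a : Finset (Fin 8) → K} (hc : ∀ T, cd a T = 0)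
    (hz : ∀ T, 0 ∈ T → 1 ∈ T → T.card = 5 → T ∉ TT → a T = 0) :
    (1) * a {0, 1, 2, 4, 5} + (1) * a {0, 1, 2, 4, 7} = 0 := by
  have h := hc {0, 1, 2, 4}
  unfold cd sg at h
  rw [show ({0, 1, 2, 4} : Finset (Fin 8))ᶜ = {3, 5, 6, 7} from by decide, Finset.sum_insert (by decide),
    Finset.sum_insert (by decide), Finset.sum_insert (by decide), Finset.sum_singleton,
    show insert (3 : Fin 8) ({0, 1, 2, 4} : Finset (Fin 8)) = {0, 1, 2, 3, 4} from by decide,
    show (({0, 1, 2, 4} : Finset (Fin 8)).filter (· < (3 : Fin 8))).card = 3 from by decide,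
    show insert (5 : Fin 8) ({0, 1, 2, 4} : Finset (Fin 8)) = {0, 1, 2, 4, 5} from by decide,
    show (({0, 1, 2, 4} : Finset (Fin 8)).filter (· < (5 : Fin 8))).card = 4 from by decide,
    show insert (6 : Fin 8) ({0, 1, 2, 4} : Finset (Fin 8)) = {0, 1, 2, 4, 6} from by decide,
    show (({0, 1, 2, 4} : Finset (Fin 8)).filter (· < (6 : Fin 8))).card = 4 from by decide,
    show insert (7 : Fin 8) ({0, 1, 2, 4} : Finset (Fin 8)) = {0, 1, 2, 4, 7} from by decide,
    show (({0, 1, 2, 4} : Finset (Fin 8)).filter (· < (7 : Fin 8))).card = 4 from by decide] at h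
  rw [hz {0, 1, 2, 3, 4} (by decide) (by decide) (by decide) (by decide)] at h
  rw [hz {0, 1, 2, 4, 6} (by decide) (by decide) (by decide) (by decide)] at h
  rw [← h]
  norm_num

theorem e2 {K : Type*} [Field K] {a : Finset (Fin 8) → K} (hc : ∀ T, cd a T = 0)
    (hz : ∀ T, 0 ∈ T → 1 ∈ T → T.card = 5 → T ∉ TT → a T = 0) :
    (-1) * a {0, 1, 2, 4, 5} + (1) * a {0, 1, 2, 5, 6} = 0 := by
  have h := hc {0, 1, 2, 5}
  unfold cd sg at h
  rw [show ({0, 1, 2, 5} : Finset (Fin 8))ᶜ = {3, 4, 6, 7} from by decide, Finset.sum_insert (by decide),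
    Finset.sum_insert (by decide), Finset.sum_insert (by decide), Finset.sum_singleton,
    show insert (3 : Fin 8) ({0, 1, 2, 5} : Finset (Fin 8)) = {0, 1, 2, 3, 5} from by decide,
    show (({0, 1, 2, 5} : Finset (Fin 8)).filter (· < (3 : Fin 8))).card = 3 from by decide,
    show insert (4 : Fin 8) ({0, 1, 2, 5} : Finset (Fin 8)) = {0, 1, 2, 4, 5} from by decide,
    show (({0, 1, 2, 5} : Finset (Fin 8)).filter (· < (4 : Fin 8))).card = 3 from by decide,
    show insert (6 : Fin 8) ({0, 1, 2, 5} : Finset (Fin 8)) = {0, 1, 2, 5, 6} from by decide,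
    show (({0, 1, 2, 5} : Finset (Fin 8)).filter (· < (6 : Fin 8))).card = 4 from by decide,
    show insert (7 : Fin 8) ({0, 1, 2, 5} : Finset (Fin 8)) = {0, 1, 2, 5, 7} from by decide,
    show (({0, 1, 2, 5} : Finset (Fin 8)).filter (· < (7 : Fin 8))).card = 4 from by decide] at h
  rw [hz {0, 1, 2, 3, 5} (by decide) (by decide) (by decide) (by decide)] at h
  rw [hz {0, 1, 2, 5, 7} (by decide) (by decide) (by decide) (by decide)] at h
  rw [← h]
  norm_num

theorem e3 {K : Type*} [Field K] {a : Finset (Fin 8) → K} (hc : ∀ T, cd a T = 0)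
    (hz : ∀ T, 0 ∈ T → 1 ∈ T → T.card = 5 → T ∉ TT → a T = 0) :
    (-1) * a {0, 1, 2, 3, 6} + (-1) * a {0, 1, 2, 5, 6} = 0 := by
  have h := hc {0, 1, 2, 6}
  unfold cd sg at h
  rw [show ({0, 1, 2, 6} : Finset (Fin 8))ᶜ = {3, 4, 5, 7} from by decide, Finset.sum_insert (by decide),
    Finset.sum_insert (by decide), Finset.sum_insert (by decide), Finset.sum_singleton,
    show insert (3 : Fin 8) ({0, 1, 2, 6} : Finset (Fin 8)) = {0, 1, 2, 3, 6} from by decide,
    show (({0, 1, 2, 6} : Finset (Fin 8)).filter (· < (3 : Fin 8))).card = 3 from by decide,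
    show insert (4 : Fin 8) ({0, 1, 2, 6} : Finset (Fin 8)) = {0, 1, 2, 4, 6} from by decide,
    show (({0, 1, 2, 6} : Finset (Fin 8)).filter (· < (4 : Fin 8))).card = 3 from by decide,
    show insert (5 : Fin 8) ({0, 1, 2, 6} : Finset (Fin 8)) = {0, 1, 2, 5, 6} from by decide,
    show (({0, 1, 2, 6} : Finset (Fin 8)).filter (· < (5 : Fin 8))).card = 3 from by decide,
    show insert (7 : Fin 8) ({0, 1, 2, 6} : Finset (Fin 8)) = {0, 1, 2, 6, 7} from by decide,
    show (({0, 1, 2, 6} : Finset (Fin 8)).filter (· < (7 : Fin 8))).card = 4 from by decide] at h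
  rw [hz {0, 1, 2, 4, 6} (by decide) (by decide) (by decide) (by decide)] at h
  rw [hz {0, 1, 2, 6, 7} (by decide) (by decide) (by decide) (by decide)] at h
  rw [← h]
  norm_num

theorem e4 {K : Type*} [Field K] {a : Finset (Fin 8) → K} (hc : ∀ T, cd a T = 0)
    (hz : ∀ T, 0 ∈ T → 1 ∈ T → T.card = 5 → T ∉ TT → a T = 0) :
    (-1) * a {0, 1, 2, 3, 7} + (-1) * a {0, 1, 2, 4, 7} = 0 := by
  have h := hc {0, 1, 2, 7}
  unfold cd sg at h
  rw [show ({0, 1, 2, 7} : Finset (Fin 8))ᶜ = {3, 4, 5, 6} from by decide, Finset.sum_insert (by decide),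
    Finset.sum_insert (by decide), Finset.sum_insert (by decide), Finset.sum_singleton,
    show insert (3 : Fin 8) ({0, 1, 2, 7} : Finset (Fin 8)) = {0, 1, 2, 3, 7} from by decide,
    show (({0, 1, 2, 7} : Finset (Fin 8)).filter (· < (3 : Fin 8))).card = 3 from by decide,
    show insert (4 : Fin 8) ({0, 1, 2, 7} : Finset (Fin 8)) = {0, 1, 2, 4, 7} from by decide,
    show (({0, 1, 2, 7} : Finset (Fin 8)).filter (· < (4 : Fin 8))).card = 3 from by decide,
    show insert (5 : Fin 8) ({0, 1, 2, 7} : Finset (Fin 8)) = {0, 1, 2, 5, 7} from by decide,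
    show (({0, 1, 2, 7} : Finset (Fin 8)).filter (· < (5 : Fin 8))).card = 3 from by decide,
    show insert (6 : Fin 8) ({0, 1, 2, 7} : Finset (Fin 8)) = {0, 1, 2, 6, 7} from by decide,
    show (({0, 1, 2, 7} : Finset (Fin 8)).filter (· < (6 : Fin 8))).card = 3 from by decide] at h
  rw [hz {0, 1, 2, 5, 7} (by decide) (by decide) (by decide) (by decide)] at h
  rw [hz {0, 1, 2, 6, 7} (by decide) (by decide) (by decide) (by decide)] at h
  rw [← h]
  norm_num

theorem e5 {K : Type*} [Field K] {a : Finset (Fin 8) → K} (hc : ∀ T, cd a T = 0)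
    (hz : ∀ T, 0 ∈ T → 1 ∈ T → T.card = 5 → T ∉ TT → a T = 0) :
    (1) * a {0, 1, 3, 4, 5} + (1) * a {0, 1, 3, 4, 6} = 0 := by
  have h := hc {0, 1, 3, 4}
  unfold cd sg at h
  rw [show ({0, 1, 3, 4} : Finset (Fin 8))ᶜ = {2, 5, 6, 7} from by decide, Finset.sum_insert (by decide),
    Finset.sum_insert (by decide), Finset.sum_insert (by decide), Finset.sum_singleton,
    show insert (2 : Fin 8) ({0, 1, 3, 4} : Finset (Fin 8)) = {0, 1, 2, 3, 4} from by decide,
    show (({0, 1, 3, 4} : Finset (Fin 8)).filter (· < (2 : Fin 8))).card = 2 from by decide,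
    show insert (5 : Fin 8) ({0, 1, 3, 4} : Finset (Fin 8)) = {0, 1, 3, 4, 5} from by decide,
    show (({0, 1, 3, 4} : Finset (Fin 8)).filter (· < (5 : Fin 8))).card = 4 from by decide,
    show insert (6 : Fin 8) ({0, 1, 3, 4} : Finset (Fin 8)) = {0, 1, 3, 4, 6} from by decide,
    show (({0, 1, 3, 4} : Finset (Fin 8)).filter (· < (6 : Fin 8))).card = 4 from by decide,
    show insert (7 : Fin 8) ({0, 1, 3, 4} : Finset (Fin 8)) = {0, 1, 3, 4, 7} from by decide,
    show (({0, 1, 3, 4} : Finset (Fin 8)).filter (· < (7 : Fin 8))).card = 4 from by decide] at h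
  rw [hz {0, 1, 2, 3, 4} (by decide) (by decide) (by decide) (by decide)] at h
  rw [hz {0, 1, 3, 4, 7} (by decide) (by decide) (by decide) (by decide)] at h
  rw [← h]
  norm_num

theorem e6 {K : Type*} [Field K] {a : Finset (Fin 8) → K} (hc : ∀ T, cd a T = 0)
    (hz : ∀ T, 0 ∈ T → 1 ∈ T → T.card = 5 → T ∉ TT → a T = 0) :
    (-1) * a {0, 1, 3, 4, 5} + (1) * a {0, 1, 3, 5, 7} = 0 := by
  have h := hc {0, 1, 3, 5}
  unfold cd sg at h
  rw [show ({0, 1, 3, 5} : Finset (Fin 8))ᶜ = {2, 4, 6, 7} from by decide, Finset.sum_insert (by decide),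
    Finset.sum_insert (by decide), Finset.sum_insert (by decide), Finset.sum_singleton,
    show insert (2 : Fin 8) ({0, 1, 3, 5} : Finset (Fin 8)) = {0, 1, 2, 3, 5} from by decide,
    show (({0, 1, 3, 5} : Finset (Fin 8)).filter (· < (2 : Fin 8))).card = 2 from by decide,
    show insert (4 : Fin 8) ({0, 1, 3, 5} : Finset (Fin 8)) = {0, 1, 3, 4, 5} from by decide,
    show (({0, 1, 3, 5} : Finset (Fin 8)).filter (· < (4 : Fin 8))).card = 3 from by decide,
    show insert (6 : Fin 8) ({0, 1, 3, 5} : Finset (Fin 8)) = {0, 1, 3, 5, 6} from by decide,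
    show (({0, 1, 3, 5} : Finset (Fin 8)).filter (· < (6 : Fin 8))).card = 4 from by decide,
    show insert (7 : Fin 8) ({0, 1, 3, 5} : Finset (Fin 8)) = {0, 1, 3, 5, 7} from by decide,
    show (({0, 1, 3, 5} : Finset (Fin 8)).filter (· < (7 : Fin 8))).card = 4 from by decide] at h
  rw [hz {0, 1, 2, 3, 5} (by decide) (by decide) (by decide) (by decide)] at h
  rw [hz {0, 1, 3, 5, 6} (by decide) (by decide) (by decide) (by decide)] at h
  rw [← h]
  norm_num

theorem e7 {K : Type*} [Field K] {a : Finset (Fin 8) → K} (hc : ∀ T, cd a T = 0)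
    (hz : ∀ T, 0 ∈ T → 1 ∈ T → T.card = 5 → T ∉ TT → a T = 0) :
    (1) * a {0, 1, 2, 3, 6} + (-1) * a {0, 1, 3, 4, 6} = 0 := by
  have h := hc {0, 1, 3, 6}
  unfold cd sg at h
  rw [show ({0, 1, 3, 6} : Finset (Fin 8))ᶜ = {2, 4, 5, 7} from by decide, Finset.sum_insert (by decide),
    Finset.sum_insert (by decide), Finset.sum_insert (by decide), Finset.sum_singleton,
    show insert (2 : Fin 8) ({0, 1, 3, 6} : Finset (Fin 8)) = {0, 1, 2, 3, 6} from by decide,
    show (({0, 1, 3, 6} : Finset (Fin 8)).filter (· < (2 : Fin 8))).card = 2 from by decide,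
    show insert (4 : Fin 8) ({0, 1, 3, 6} : Finset (Fin 8)) = {0, 1, 3, 4, 6} from by decide,
    show (({0, 1, 3, 6} : Finset (Fin 8)).filter (· < (4 : Fin 8))).card = 3 from by decide,
    show insert (5 : Fin 8) ({0, 1, 3, 6} : Finset (Fin 8)) = {0, 1, 3, 5, 6} from by decide,
    show (({0, 1, 3, 6} : Finset (Fin 8)).filter (· < (5 : Fin 8))).card = 3 from by decide,
    show insert (7 : Fin 8) ({0, 1, 3, 6} : Finset (Fin 8)) = {0, 1, 3, 6, 7} from by decide,
    show (({0, 1, 3, 6} : Finset (Fin 8)).filter (· < (7 : Fin 8))).card = 4 from by decide] at h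
  rw [hz {0, 1, 3, 5, 6} (by decide) (by decide) (by decide) (by decide)] at h
  rw [hz {0, 1, 3, 6, 7} (by decide) (by decide) (by decide) (by decide)] at h
  rw [← h]
  norm_num

theorem e8 {K : Type*} [Field K] {a : Finset (Fin 8) → K} (hc : ∀ T, cd a T = 0)
    (hz : ∀ T, 0 ∈ T → 1 ∈ T → T.card = 5 → T ∉ TT → a T = 0) :
    (1) * a {0, 1, 2, 3, 7} + (-1) * a {0, 1, 3, 5, 7} = 0 := by
  have h := hc {0, 1, 3, 7}
  unfold cd sg at h
  rw [show ({0, 1, 3, 7} : Finset (Fin 8))ᶜ = {2, 4, 5, 6} from by decide, Finset.sum_insert (by decide),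
    Finset.sum_insert (by decide), Finset.sum_insert (by decide), Finset.sum_singleton,
    show insert (2 : Fin 8) ({0, 1, 3, 7} : Finset (Fin 8)) = {0, 1, 2, 3, 7} from by decide,
    show (({0, 1, 3, 7} : Finset (Fin 8)).filter (· < (2 : Fin 8))).card = 2 from by decide,
    show insert (4 : Fin 8) ({0, 1, 3, 7} : Finset (Fin 8)) = {0, 1, 3, 4, 7} from by decide,
    show (({0, 1, 3, 7} : Finset (Fin 8)).filter (· < (4 : Fin 8))).card = 3 from by decide,
    show insert (5 : Fin 8) ({0, 1, 3, 7} : Finset (Fin 8)) = {0, 1, 3, 5, 7} from by decide,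
    show (({0, 1, 3, 7} : Finset (Fin 8)).filter (· < (5 : Fin 8))).card = 3 from by decide,
    show insert (6 : Fin 8) ({0, 1, 3, 7} : Finset (Fin 8)) = {0, 1, 3, 6, 7} from by decide,
    show (({0, 1, 3, 7} : Finset (Fin 8)).filter (· < (6 : Fin 8))).card = 3 from by decide] at h
  rw [hz {0, 1, 3, 4, 7} (by decide) (by decide) (by decide) (by decide)] at h
  rw [hz {0, 1, 3, 6, 7} (by decide) (by decide) (by decide) (by decide)] at h
  rw [← h]
  norm_num

theorem e9 {K : Type*} [Field K] {a : Finset (Fin 8) → K} (hc : ∀ T, cd a T = 0)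
    (hz : ∀ T, 0 ∈ T → 1 ∈ T → T.card = 5 → T ∉ TT → a T = 0) :
    (1) * a {0, 1, 2, 4, 5} + (1) * a {0, 1, 3, 4, 5} = 0 := by
  have h := hc {0, 1, 4, 5}
  unfold cd sg at h
  rw [show ({0, 1, 4, 5} : Finset (Fin 8))ᶜ = {2, 3, 6, 7} from by decide, Finset.sum_insert (by decide),
    Finset.sum_insert (by decide), Finset.sum_insert (by decide), Finset.sum_singleton,
    show insert (2 : Fin 8) ({0, 1, 4, 5} : Finset (Fin 8)) = {0, 1, 2, 4, 5} from by decide,
    show (({0, 1, 4, 5} : Finset (Fin 8)).filter (· < (2 : Fin 8))).card = 2 from by decide,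
    show insert (3 : Fin 8) ({0, 1, 4, 5} : Finset (Fin 8)) = {0, 1, 3, 4, 5} from by decide,
    show (({0, 1, 4, 5} : Finset (Fin 8)).filter (· < (3 : Fin 8))).card = 2 from by decide,
    show insert (6 : Fin 8) ({0, 1, 4, 5} : Finset (Fin 8)) = {0, 1, 4, 5, 6} from by decide,
    show (({0, 1, 4, 5} : Finset (Fin 8)).filter (· < (6 : Fin 8))).card = 4 from by decide,
    show insert (7 : Fin 8) ({0, 1, 4, 5} : Finset (Fin 8)) = {0, 1, 4, 5, 7} from by decide,
    show (({0, 1, 4, 5} : Finset (Fin 8)).filter (· < (7 : Fin 8))).card = 4 from by decide] at h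
  rw [hz {0, 1, 4, 5, 6} (by decide) (by decide) (by decide) (by decide)] at h
  rw [hz {0, 1, 4, 5, 7} (by decide) (by decide) (by decide) (by decide)] at h
  rw [← h]
  norm_num

theorem e10 {K : Type*} [Field K] {a : Finset (Fin 8) → K} (hc : ∀ T, cd a T = 0)
    (hz : ∀ T, 0 ∈ T → 1 ∈ T → T.card = 5 → T ∉ TT → a T = 0) :
    (1) * a {0, 1, 3, 4, 6} + (1) * a {0, 1, 4, 6, 7} = 0 := by
  have h := hc {0, 1, 4, 6}
  unfold cd sg at h
  rw [show ({0, 1, 4, 6} : Finset (Fin 8))ᶜ = {2, 3, 5, 7} from by decide, Finset.sum_insert (by decide),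
    Finset.sum_insert (by decide), Finset.sum_insert (by decide), Finset.sum_singleton,
    show insert (2 : Fin 8) ({0, 1, 4, 6} : Finset (Fin 8)) = {0, 1, 2, 4, 6} from by decide,
    show (({0, 1, 4, 6} : Finset (Fin 8)).filter (· < (2 : Fin 8))).card = 2 from by decide,
    show insert (3 : Fin 8) ({0, 1, 4, 6} : Finset (Fin 8)) = {0, 1, 3, 4, 6} from by decide,
    show (({0, 1, 4, 6} : Finset (Fin 8)).filter (· < (3 : Fin 8))).card = 2 from by decide,
    show insert (5 : Fin 8) ({0, 1, 4, 6} : Finset (Fin 8)) = {0, 1, 4, 5, 6} from by decide,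
    show (({0, 1, 4, 6} : Finset (Fin 8)).filter (· < (5 : Fin 8))).card = 3 from by decide,
    show insert (7 : Fin 8) ({0, 1, 4, 6} : Finset (Fin 8)) = {0, 1, 4, 6, 7} from by decide,
    show (({0, 1, 4, 6} : Finset (Fin 8)).filter (· < (7 : Fin 8))).card = 4 from by decide] at h
  rw [hz {0, 1, 2, 4, 6} (by decide) (by decide) (by decide) (by decide)] at h
  rw [hz {0, 1, 4, 5, 6} (by decide) (by decide) (by decide) (by decide)] at h
  rw [← h]
  norm_num

theorem e11 {K : Type*} [Field K] {a : Finset (Fin 8) → K} (hc : ∀ T, cd a T = 0)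
    (hz : ∀ T, 0 ∈ T → 1 ∈ T → T.card = 5 → T ∉ TT → a T = 0) :
    (1) * a {0, 1, 2, 4, 7} + (-1) * a {0, 1, 4, 6, 7} = 0 := by
  have h := hc {0, 1, 4, 7}
  unfold cd sg at h
  rw [show ({0, 1, 4, 7} : Finset (Fin 8))ᶜ = {2, 3, 5, 6} from by decide, Finset.sum_insert (by decide),
    Finset.sum_insert (by decide), Finset.sum_insert (by decide), Finset.sum_singleton,
    show insert (2 : Fin 8) ({0, 1, 4, 7} : Finset (Fin 8)) = {0, 1, 2, 4, 7} from by decide,
    show (({0, 1, 4, 7} : Finset (Fin 8)).filter (· < (2 : Fin 8))).card = 2 from by decide,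
    show insert (3 : Fin 8) ({0, 1, 4, 7} : Finset (Fin 8)) = {0, 1, 3, 4, 7} from by decide,
    show (({0, 1, 4, 7} : Finset (Fin 8)).filter (· < (3 : Fin 8))).card = 2 from by decide,
    show insert (5 : Fin 8) ({0, 1, 4, 7} : Finset (Fin 8)) = {0, 1, 4, 5, 7} from by decide,
    show (({0, 1, 4, 7} : Finset (Fin 8)).filter (· < (5 : Fin 8))).card = 3 from by decide,
    show insert (6 : Fin 8) ({0, 1, 4, 7} : Finset (Fin 8)) = {0, 1, 4, 6, 7} from by decide,
    show (({0, 1, 4, 7} : Finset (Fin 8)).filter (· < (6 : Fin 8))).card = 3 from by decide] at h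
  rw [hz {0, 1, 3, 4, 7} (by decide) (by decide) (by decide) (by decide)] at h
  rw [hz {0, 1, 4, 5, 7} (by decide) (by decide) (by decide) (by decide)] at h
  rw [← h]
  norm_num

theorem e12 {K : Type*} [Field K] {a : Finset (Fin 8) → K} (hc : ∀ T, cd a T = 0)
    (hz : ∀ T, 0 ∈ T → 1 ∈ T → T.card = 5 → T ∉ TT → a T = 0) :
    (1) * a {0, 1, 2, 5, 6} + (1) * a {0, 1, 5, 6, 7} = 0 := by
  have h := hc {0, 1, 5, 6}
  unfold cd sg at h
  rw [show ({0, 1, 5, 6} : Finset (Fin 8))ᶜ = {2, 3, 4, 7} from by decide, Finset.sum_insert (by decide),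
    Finset.sum_insert (by decide), Finset.sum_insert (by decide), Finset.sum_singleton,
    show insert (2 : Fin 8) ({0, 1, 5, 6} : Finset (Fin 8)) = {0, 1, 2, 5, 6} from by decide,
    show (({0, 1, 5, 6} : Finset (Fin 8)).filter (· < (2 : Fin 8))).card = 2 from by decide,
    show insert (3 : Fin 8) ({0, 1, 5, 6} : Finset (Fin 8)) = {0, 1, 3, 5, 6} from by decide,
    show (({0, 1, 5, 6} : Finset (Fin 8)).filter (· < (3 : Fin 8))).card = 2 from by decide,
    show insert (4 : Fin 8) ({0, 1, 5, 6} : Finset (Fin 8)) = {0, 1, 4, 5, 6} from by decide,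
    show (({0, 1, 5, 6} : Finset (Fin 8)).filter (· < (4 : Fin 8))).card = 2 from by decide,
    show insert (7 : Fin 8) ({0, 1, 5, 6} : Finset (Fin 8)) = {0, 1, 5, 6, 7} from by decide,
    show (({0, 1, 5, 6} : Finset (Fin 8)).filter (· < (7 : Fin 8))).card = 4 from by decide] at h
  rw [hz {0, 1, 3, 5, 6} (by decide) (by decide) (by decide) (by decide)] at h
  rw [hz {0, 1, 4, 5, 6} (by decide) (by decide) (by decide) (by decide)] at h
  rw [← h]
  norm_num

theorem e13 {K : Type*} [Field K] {a : Finset (Fin 8) → K} (hc : ∀ T, cd a T = 0)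
    (hz : ∀ T, 0 ∈ T → 1 ∈ T → T.card = 5 → T ∉ TT → a T = 0) :
    (1) * a {0, 1, 3, 5, 7} + (-1) * a {0, 1, 5, 6, 7} = 0 := by
  have h := hc {0, 1, 5, 7}
  unfold cd sg at h
  rw [show ({0, 1, 5, 7} : Finset (Fin 8))ᶜ = {2, 3, 4, 6} from by decide, Finset.sum_insert (by decide),
    Finset.sum_insert (by decide), Finset.sum_insert (by decide), Finset.sum_singleton,
    show insert (2 : Fin 8) ({0, 1, 5, 7} : Finset (Fin 8)) = {0, 1, 2, 5, 7} from by decide,
    show (({0, 1, 5, 7} : Finset (Fin 8)).filter (· < (2 : Fin 8))).card = 2 from by decide,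
    show insert (3 : Fin 8) ({0, 1, 5, 7} : Finset (Fin 8)) = {0, 1, 3, 5, 7} from by decide,
    show (({0, 1, 5, 7} : Finset (Fin 8)).filter (· < (3 : Fin 8))).card = 2 from by decide,
    show insert (4 : Fin 8) ({0, 1, 5, 7} : Finset (Fin 8)) = {0, 1, 4, 5, 7} from by decide,
    show (({0, 1, 5, 7} : Finset (Fin 8)).filter (· < (4 : Fin 8))).card = 2 from by decide,
    show insert (6 : Fin 8) ({0, 1, 5, 7} : Finset (Fin 8)) = {0, 1, 5, 6, 7} from by decide,
    show (({0, 1, 5, 7} : Finset (Fin 8)).filter (· < (6 : Fin 8))).card = 3 from by decide] at h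
  rw [hz {0, 1, 2, 5, 7} (by decide) (by decide) (by decide) (by decide)] at h
  rw [hz {0, 1, 4, 5, 7} (by decide) (by decide) (by decide) (by decide)] at h
  rw [← h]
  norm_num

theorem e14 {K : Type*} [Field K] {a : Finset (Fin 8) → K} (hc : ∀ T, cd a T = 0)
    (hz : ∀ T, 0 ∈ T → 1 ∈ T → T.card = 5 → T ∉ TT → a T = 0) :
    (1) * a {0, 1, 4, 6, 7} + (1) * a {0, 1, 5, 6, 7} = 0 := by
  have h := hc {0, 1, 6, 7}
  unfold cd sg at h
  rw [show ({0, 1, 6, 7} : Finset (Fin 8))ᶜ = {2, 3, 4, 5} from by decide, Finset.sum_insert (by decide),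
    Finset.sum_insert (by decide), Finset.sum_insert (by decide), Finset.sum_singleton,
    show insert (2 : Fin 8) ({0, 1, 6, 7} : Finset (Fin 8)) = {0, 1, 2, 6, 7} from by decide,
    show (({0, 1, 6, 7} : Finset (Fin 8)).filter (· < (2 : Fin 8))).card = 2 from by decide,
    show insert (3 : Fin 8) ({0, 1, 6, 7} : Finset (Fin 8)) = {0, 1, 3, 6, 7} from by decide,
    show (({0, 1, 6, 7} : Finset (Fin 8)).filter (· < (3 : Fin 8))).card = 2 from by decide,
    show insert (4 : Fin 8) ({0, 1, 6, 7} : Finset (Fin 8)) = {0, 1, 4, 6, 7} from by decide,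
    show (({0, 1, 6, 7} : Finset (Fin 8)).filter (· < (4 : Fin 8))).card = 2 from by decide,
    show insert (5 : Fin 8) ({0, 1, 6, 7} : Finset (Fin 8)) = {0, 1, 5, 6, 7} from by decide,
    show (({0, 1, 6, 7} : Finset (Fin 8)).filter (· < (5 : Fin 8))).card = 2 from by decide] at h
  rw [hz {0, 1, 2, 6, 7} (by decide) (by decide) (by decide) (by decide)] at h
  rw [hz {0, 1, 3, 6, 7} (by decide) (by decide) (by decide) (by decide)] at h
  rw [← h]
  norm_num

theorem r467 {K : Type*} [Field K] {a : Finset (Fin 8) → K} (hc : ∀ T, cd a T = 0)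
    (hz : ∀ T, 0 ∈ T → 1 ∈ T → T.card = 5 → T ∉ TT → a T = 0) :
    a {0, 1, 4, 6, 7} = (-1) * a {0, 1, 5, 6, 7} := by
  linear_combination (1) * (e14 hc hz)

theorem r357 {K : Type*} [Field K] {a : Finset (Fin 8) → K} (hc : ∀ T, cd a T = 0)
    (hz : ∀ T, 0 ∈ T → 1 ∈ T → T.card = 5 → T ∉ TT → a T = 0) :
    a {0, 1, 3, 5, 7} = (1) * a {0, 1, 5, 6, 7} := by
  linear_combination (1) * (e13 hc hz)

theorem r346 {K : Type*} [Field K] {a : Finset (Fin 8) → K} (hc : ∀ T, cd a T = 0)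
    (hz : ∀ T, 0 ∈ T → 1 ∈ T → T.card = 5 → T ∉ TT → a T = 0) :
    a {0, 1, 3, 4, 6} = (1) * a {0, 1, 5, 6, 7} := by
  linear_combination (1) * (e10 hc hz) + (-1) * (e14 hc hz)

theorem r345 {K : Type*} [Field K] {a : Finset (Fin 8) → K} (hc : ∀ T, cd a T = 0)
    (hz : ∀ T, 0 ∈ T → 1 ∈ T → T.card = 5 → T ∉ TT → a T = 0) :
    a {0, 1, 3, 4, 5} = (1) * a {0, 1, 5, 6, 7} := by
  linear_combination (-1) * (e6 hc hz) + (1) * (e13 hc hz)

theorem r256 {K : Type*} [Field K] {a : Finset (Fin 8) → K} (hc : ∀ T, cd a T = 0)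
    (hz : ∀ T, 0 ∈ T → 1 ∈ T → T.card = 5 → T ∉ TT → a T = 0) :
    a {0, 1, 2, 5, 6} = (-1) * a {0, 1, 5, 6, 7} := by
  linear_combination (1) * (e12 hc hz)

theorem r247 {K : Type*} [Field K] {a : Finset (Fin 8) → K} (hc : ∀ T, cd a T = 0)
    (hz : ∀ T, 0 ∈ T → 1 ∈ T → T.card = 5 → T ∉ TT → a T = 0) :
    a {0, 1, 2, 4, 7} = (-1) * a {0, 1, 5, 6, 7} := by
  linear_combination (1) * (e11 hc hz) + (1) * (e14 hc hz)

theorem r245 {K : Type*} [Field K] {a : Finset (Fin 8) → K} (hc : ∀ T, cd a T = 0)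
    (hz : ∀ T, 0 ∈ T → 1 ∈ T → T.card = 5 → T ∉ TT → a T = 0) :
    a {0, 1, 2, 4, 5} = (-1) * a {0, 1, 5, 6, 7} := by
  linear_combination (-1) * (e2 hc hz) + (1) * (e12 hc hz)

theorem r237 {K : Type*} [Field K] {a : Finset (Fin 8) → K} (hc : ∀ T, cd a T = 0)
    (hz : ∀ T, 0 ∈ T → 1 ∈ T → T.card = 5 → T ∉ TT → a T = 0) :
    a {0, 1, 2, 3, 7} = (1) * a {0, 1, 5, 6, 7} := by
  linear_combination (1) * (e8 hc hz) + (1) * (e13 hc hz)

theorem r236 {K : Type*} [Field K] {a : Finset (Fin 8) → K} (hc : ∀ T, cd a T = 0)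
    (hz : ∀ T, 0 ∈ T → 1 ∈ T → T.card = 5 → T ∉ TT → a T = 0) :
    a {0, 1, 2, 3, 6} = (1) * a {0, 1, 5, 6, 7} := by
  linear_combination (-1) * (e3 hc hz) + (-1) * (e12 hc hz)

theorem two_mul {K : Type*} [Field K] {a : Finset (Fin 8) → K} (hc : ∀ T, cd a T = 0)
    (hz : ∀ T, 0 ∈ T → 1 ∈ T → T.card = 5 → T ∉ TT → a T = 0) :
    (2) * a {0, 1, 5, 6, 7} = 0 := by
  linear_combination (1) * (e0 hc hz) + (1) * (e3 hc hz) + (-1) * (e8 hc hz) + (1) * (e12 hc hz) + (-1) * (e13 hc hz)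

theorem all_zero {K : Type*} [Field K] {a : Finset (Fin 8) → K} (hc : ∀ T, cd a T = 0)
    (hz : ∀ T, 0 ∈ T → 1 ∈ T → T.card = 5 → T ∉ TT → a T = 0) (h0 : a {0, 1, 5, 6, 7} = 0) :
    ∀ T ∈ TT, a T = 0 := by
  intro T hT
  unfold TT at hT
  simp only [List.mem_cons, List.not_mem_nil, or_false] at hT
  rcases hT with rfl | rfl | rfl | rfl | rfl | rfl | rfl | rfl | rfl | rfl
  · exact h0
  · rw [r467 hc hz, h0, mul_zero]
  · rw [r357 hc hz, h0, mul_zero]
  · rw [r346 hc hz, h0, mul_zero]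
  · rw [r345 hc hz, h0, mul_zero]
  · rw [r256 hc hz, h0, mul_zero]
  · rw [r247 hc hz, h0, mul_zero]
  · rw [r245 hc hz, h0, mul_zero]
  · rw [r237 hc hz, h0, mul_zero]
  · rw [r236 hc hz, h0, mul_zero]

end Pool.Agent.Q123.KB.RP
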